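import Mathlib
import Pool.Agent.SLX.Defs
/-!
# Virtually nilpotent groups and finite complete ShortLex systems: shared definitions (MP_6a3c10_al)
-/
namespace Pool.Agent.VNR
open Pool.Agent.SLX (val)

/-! ### Chains mod 2 -/

/-- Chains mod 2. -/
abbrev Ch (X : Type) := X →₀ ZMod 2

/-- All basis elements that occur in `c` satisfy `P`. -/
def Supp {X : Type} (P : X → Prop) (c : Ch X) : Prop := ∀ x ∈ c.support, P x

/-- Linear extension. -/
noncomputable def lin {X Y : Type} (f : X → Ch Y) : Ch X →ₗ[ZMod 2] Ch Y :=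
  Finsupp.linearCombination (ZMod 2) f

/-- The cone with apex `x`. -/
noncomputable def cone {X : Type} (x : X) : Ch (List X) →ₗ[ZMod 2] Ch (List X) :=
  lin (fun l => Finsupp.single (x :: l) 1)

/-- The (augmented) boundary of a tuple. -/
noncomputable def bdl {X : Type} : List X → Ch (List X)
  | [] => 0
  | x :: l => Finsupp.single l 1 + cone x (bdl l)

/-- The boundary. -/
noncomputable def bd {X : Type} : Ch (List X) →ₗ[ZMod 2] Ch (List X) := lin bdl

/-- The chain map induced by a map of vertices. -/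
noncomputable def mp {X Y : Type} (f : X → Y) : Ch (List X) →ₗ[ZMod 2] Ch (List Y) :=
  lin (fun l => Finsupp.single (l.map f) 1)

/-! ### Length functions -/

/-- `L n g` means that the length of `g` is at most `n`. -/
structure LenF {G : Type} [Group G] (L : ℕ → G → Prop) : Prop where
  one : L 0 1
  mul : ∀ m n g h, L m g → L n h → L (m + n) (g * h)
  mono : ∀ m n g, m ≤ n → L m g → L n g
  ex : ∀ g, ∃ n, L n g
  fin : ∀ n, {g | L n g}.Finite
  inv : ∃ C : ℕ, ∀ n g, L n g → L (C * n) g⁻¹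
  split : ∀ m n g, L (m + n) g → ∃ p q, L m p ∧ L n q ∧ g = p * q

/-- Simplices of dimension `k` (with `k + 1` vertices) in the intersection of two balls, with
scale `r`. -/
def InI {G : Type} [Group G] (L : ℕ → G → Prop) (g : G) (a b r k : ℕ) (l : List G) : Prop :=
  l.length = k + 1 ∧ (∀ p ∈ l, L a p ∧ L b (p⁻¹ * g)) ∧ ∀ p ∈ l, ∀ q ∈ l, L r (p⁻¹ * q)

/-- The intersections of two balls are uniformly coarsely acyclic. -/
def Acyc {G : Type} [Group G] (L : ℕ → G → Prop) : Prop :=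
  ∀ N r : ℕ, ∃ R S : ℕ, ∀ (g : G) (a b k : ℕ), k ≤ N → ∀ c : Ch (List G),
    Supp (InI L g a b r k) c → bd c = 0 →
    ∃ d : Ch (List G), Supp (InI L g a (b + S) R (k + 1)) d ∧ bd d = c

/-! ### Pairs -/

/-- Opposite points of loops. -/
def Lam {G : Type} [Group G] (L : ℕ → G → Prop) (z : G) (n : ℕ) (p : G × G) : Prop :=
  L n (p.1⁻¹ * z * p.2) ∧ L n (p.2⁻¹ * z * p.1)

/-- Nearby pairs. -/
def Nr {G : Type} [Group G] (L : ℕ → G → Prop) (r : ℕ) (p q : G × G) : Prop :=
  L r (p.1⁻¹ * q.1) ∧ L r (p.2⁻¹ * q.2)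

/-- Simplices of dimension `k` in `Lam`, with scale `r`. -/
def InL {G : Type} [Group G] (L : ℕ → G → Prop) (z : G) (n r k : ℕ) (l : List (G × G)) : Prop :=
  l.length = k + 1 ∧ (∀ p ∈ l, Lam L z n p) ∧ ∀ p ∈ l, ∀ q ∈ l, Nr L r p q

/-- The same, with all first coordinates at distance at most `r` from `x`. -/
def InLx {G : Type} [Group G] (L : ℕ → G → Prop) (z : G) (n r k : ℕ) (x : G)
    (l : List (G × G)) : Prop :=
  InL L z n r k l ∧ ∀ p ∈ l, L r (x⁻¹ * p.1) ∧ L r (p.1⁻¹ * x)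

/-- `Lam` is uniformly coarsely acyclic. -/
def AcycL {G : Type} [Group G] (L : ℕ → G → Prop) : Prop :=
  ∀ N r : ℕ, ∃ R S : ℕ, ∀ (z : G) (n : ℕ), (∀ x : G, L (2 * n) (x⁻¹ * z ^ 2 * x)) →
    ∀ k : ℕ, k ≤ N → ∀ c : Ch (List (G × G)), Supp (InL L z n r k) c → bd c = 0 →
    ∃ d : Ch (List (G × G)), Supp (InL L z (n + S) R (k + 1)) d ∧ bd d = c

/-! ### Labels -/

/-- Far pairs of elements of `G` have an antipodal labelling by `-D, ..., -1, 1, ..., D`. -/
def LabG {G : Type} [Group G] (L : ℕ → G → Prop) (D : ℕ) : Prop :=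
  ∀ r : ℕ, ∃ (C : ℕ) (lam : G × G → ℤ), ∀ p : G × G, ¬ L C (p.1⁻¹ * p.2) →
    ¬ L C (p.2⁻¹ * p.1) → lam p ≠ 0 ∧ |lam p| ≤ D ∧ lam p.swap = - lam p ∧
    ∀ q : G × G, ¬ L C (q.1⁻¹ * q.2) → ¬ L C (q.2⁻¹ * q.1) → Nr L r p q → lam q ≠ - lam p

/-- `z` is a distorted element of infinite order with finitely many conjugates. -/
def Dist {G : Type} [Group G] (z : G) : Prop :=
  ¬ IsOfFinOrder z ∧ (∃ F : Set G, F.Finite ∧ ∀ x : G, x⁻¹ * z * x ∈ F) ∧
  ∃ (x y : G) (F : Set G), F.Finite ∧ ∀ n : ℕ, ∃ f ∈ F,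
    z ^ (n ^ 2) = x ^ n * y ^ n * (x⁻¹) ^ n * (y⁻¹) ^ n * f

/-- Some subgroup of finite index is commutative. -/
def VirtAb (G : Type) [Group G] : Prop :=
  ∃ H : Subgroup G, H.FiniteIndex ∧ ∀ a ∈ H, ∀ b ∈ H, a * b = b * a

/-! ### Words -/

section words
variable {B G : Type} [LinearOrder B] [Group G] (ev : B → G)

/-- `u` is lexicographically smaller than `v`, of the same length and value. -/
def Less (u v : List B) : Prop := u.length = v.length ∧ val ev u = val ev v ∧ u < v

/-- `w` is the lexicographically least word of its length and value. -/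
def Irr (w : List B) : Prop := ∀ u, ¬ Less ev u w

/-- `g'` at time `n'` is in the past of `g` at time `n`. -/
def Past (g' : G) (n' : ℕ) (g : G) (n : ℕ) : Prop :=
  ∃ w : List B, n' + w.length = n ∧ g' * val ev w = g

/-- The total word of a generator (the list is in the reversed order). -/
def tw : List (List B) → List B
  | [] => []
  | y :: c => tw c ++ y

/-- Generators `x_i :: ... :: x_1 :: x_0` of the resolution. -/
def IsGen (a : ℕ) : List (List B) → Prop
  | [] => True
  | [x] => Irr ev x ∧ x.length = a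
  | y :: x :: c => Irr ev y ∧ ¬ Irr ev (x ++ y) ∧ Irr ev (x ++ y.dropLast) ∧ IsGen a (x :: c)

/-- Generators of dimension `k - 1` in the past of `g` at time `n`. -/
def InS (a : ℕ) (g : G) (n k : ℕ) (c : List (List B)) : Prop :=
  IsGen ev a c ∧ c.length = k ∧ Past ev (val ev (tw c)) (tw c).length g n

/-- Words that are not least contain a short word that is not least. -/
def LocT (K : ℕ) : Prop := ∀ w : List B, ¬ Irr ev w → ∃ p f q : List B, w = p ++ f ++ q ∧
  f.length ≤ K ∧ ¬ Irr ev f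

/-- `D` is the boundary of a resolution up to dimension `N`. -/
structure IsRes (a N : ℕ) (D : List (List B) → Ch (List (List B))) : Prop where
  nil : D [] = 0
  supp : ∀ y c, IsGen ev a (y :: c) → c.length ≤ N →
    Supp (InS ev a (val ev (tw (y :: c))) (tw (y :: c)).length c.length) (D (y :: c))
  sq : ∀ c, IsGen ev a c → c.length ≤ N + 1 → lin D (D c) = 0
  exact : ∀ k, k ≤ N → ∀ (g : G) (n : ℕ), a ≤ n → ∀ c, Supp (InS ev a g n k) c → lin D c = 0 →
    ∃ d, Supp (InS ev a g n (k + 1)) d ∧ lin D d = c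

end words

end Pool.Agent.VNR
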