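import Mathlib
import Pool.Agent.VNR.Defs
/-!
# Chain algebra, first part
-/
namespace Pool.Agent.VNR

variable {X Y Z : Type}

private theorem zmod2_ne_zero {a : ZMod 2} (h : a ≠ 0) : a = 1 := by
  revert h
  revert a
  decide

theorem ch_add_self (c : Ch X) : c + c = 0 := by
  ext x
  rw [Finsupp.add_apply, Finsupp.zero_apply]
  exact CharTwo.add_self_eq_zero _

theorem lin_single (f : X → Ch Y) (x : X) : lin f (Finsupp.single x 1) = f x := by
  unfold lin
  rw [Finsupp.linearCombination_single, one_smul]

theorem lin_eq_sum (f : X → Ch Y) (c : Ch X) : lin f c = ∑ x ∈ c.support, f x := by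
  unfold lin
  rw [Finsupp.linearCombination_apply, Finsupp.sum]
  refine Finset.sum_congr rfl fun x hx => ?_
  rw [zmod2_ne_zero (Finsupp.mem_support_iff.1 hx), one_smul]

theorem lin_lin (f : X → Ch Y) (g : Y → Ch Z) (c : Ch X) :
    lin g (lin f c) = lin (fun x => lin g (f x)) c := by
  rw [lin_eq_sum f c, lin_eq_sum (fun x => lin g (f x)) c, map_sum]

theorem lin_congr (f g : X → Ch Y) (c : Ch X) (h : ∀ x ∈ c.support, f x = g x) :
    lin f c = lin g c := by
  rw [lin_eq_sum, lin_eq_sum]
  exact Finset.sum_congr rfl h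

theorem lin_add_fun (f g : X → Ch Y) (c : Ch X) :
    lin (fun x => f x + g x) c = lin f c + lin g c := by
  rw [lin_eq_sum, lin_eq_sum, lin_eq_sum, Finset.sum_add_distrib]

theorem supp_zero {P : X → Prop} : Supp P (0 : Ch X) := by
  intro x hx
  rw [Finsupp.support_zero] at hx
  exact absurd hx (Finset.notMem_empty x)

theorem supp_single {P : X → Prop} {x : X} (h : P x) : Supp P (Finsupp.single x 1 : Ch X) := by
  classical
  intro y hy
  have h1 := Finsupp.support_single_subset hy
  rw [Finset.mem_singleton] at h1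
  rw [h1]
  exact h

theorem supp_add {P : X → Prop} {c d : Ch X} (h : Supp P c) (h' : Supp P d) : Supp P (c + d) := by
  classical
  intro x hx
  rcases Finset.mem_union.1 (Finsupp.support_add hx) with h1 | h1
  · exact h x h1
  · exact h' x h1

theorem supp_mono {P Q : X → Prop} {c : Ch X} (h : Supp P c) (h' : ∀ x, P x → Q x) : Supp Q c :=
  fun x hx => h' x (h x hx)

/-- Every basis element of `lin f c` occurs in `f x` for some `x` that occurs in `c`. -/
theorem mem_lin {f : X → Ch Y} {c : Ch X} {y : Y} (h : y ∈ (lin f c).support) :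
    ∃ x ∈ c.support, y ∈ (f x).support := by
  classical
  by_contra hn
  push Not at hn
  rw [Finsupp.mem_support_iff, lin_eq_sum, Finsupp.finsetSum_apply] at h
  apply h
  refine Finset.sum_eq_zero fun x hx => ?_
  exact Finsupp.notMem_support_iff.1 (hn x hx)

theorem supp_lin {P : X → Prop} {Q : Y → Prop} {f : X → Ch Y} {c : Ch X} (h : Supp P c)
    (h' : ∀ x, P x → Supp Q (f x)) : Supp Q (lin f c) := by
  intro y hy
  obtain ⟨x, hx, hxy⟩ := mem_lin hy
  exact h' x (h x hx) y hxy

theorem supp_cone {P Q : List X → Prop} {x : X} {c : Ch (List X)} (h : Supp P c)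
    (h' : ∀ l, P l → Q (x :: l)) : Supp Q (cone x c) :=
  supp_lin h fun l hl => supp_single (h' l hl)

end Pool.Agent.VNR
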