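import Mathlib
import Pool.Agent.VNR.Defs
import Pool.Agent.VNR.AlgA
/-!
# Chain algebra, second part
-/
namespace Pool.Agent.VNR

variable {X Y Z : Type}

/-- two linear maps on chains agree if they agree on the basis -/
private theorem hom_ext' (f g : Ch X →ₗ[ZMod 2] Ch Y)
    (h : ∀ x, f (Finsupp.single x 1) = g (Finsupp.single x 1)) (c : Ch X) : f c = g c := by
  have : f = g := by
    apply Finsupp.lhom_ext
    intro x b
    have hb : b = 0 ∨ b = 1 := by
      revert b
      decide
    rcases hb with rfl | rfl
    · simp
    · exact h x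
  rw [this]

private theorem cone_one (x : X) (l : List X) :
    cone x (Finsupp.single l 1) = Finsupp.single (x :: l) 1 := by
  unfold cone
  rw [lin_single]

private theorem bd_one (l : List X) : bd (Finsupp.single l 1) = bdl l := by
  unfold bd
  rw [lin_single]

private theorem mp_one (f : X → Y) (l : List X) :
    mp f (Finsupp.single l 1) = Finsupp.single (l.map f) 1 := by
  unfold mp
  rw [lin_single]

theorem bd_cone (x : X) (c : Ch (List X)) : bd (cone x c) = c + cone x (bd c) := by
  refine hom_ext' (bd.comp (cone x)) (LinearMap.id + (cone x).comp bd) (fun l => ?_) c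
  show bd (cone x (Finsupp.single l 1)) = Finsupp.single l 1 + cone x (bd (Finsupp.single l 1))
  rw [cone_one, bd_one, bd_one]
  rfl

theorem bd_bdl (l : List X) : bd (bdl l) = 0 := by
  induction l with
  | nil => exact map_zero _
  | cons x l ih =>
    show bd (Finsupp.single l 1 + cone x (bdl l)) = 0
    rw [map_add, bd_cone, bd_one, ih, map_zero, add_zero]
    exact ch_add_self _

theorem bd_bd (c : Ch (List X)) : bd (bd c) = 0 := by
  refine hom_ext' (bd.comp bd) 0 (fun l => ?_) c
  show bd (bd (Finsupp.single l 1)) = 0
  rw [bd_one, bd_bdl]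

private theorem mp_cone (f : X → Y) (x : X) (c : Ch (List X)) :
    mp f (cone x c) = cone (f x) (mp f c) := by
  refine hom_ext' ((mp f).comp (cone x)) ((cone (f x)).comp (mp f)) (fun l => ?_) c
  show mp f (cone x (Finsupp.single l 1)) = cone (f x) (mp f (Finsupp.single l 1))
  rw [cone_one, mp_one, mp_one, cone_one]
  rfl

private theorem bdl_map (f : X → Y) (l : List X) : bdl (l.map f) = mp f (bdl l) := by
  induction l with
  | nil => exact (map_zero _).symm
  | cons x l ih =>
    show Finsupp.single (l.map f) 1 + cone (f x) (bdl (l.map f)) =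
      mp f (Finsupp.single l 1 + cone x (bdl l))
    rw [map_add, mp_one, mp_cone, ih]

theorem bd_mp (f : X → Y) (c : Ch (List X)) : bd (mp f c) = mp f (bd c) := by
  refine hom_ext' (bd.comp (mp f)) ((mp f).comp bd) (fun l => ?_) c
  show bd (mp f (Finsupp.single l 1)) = mp f (bd (Finsupp.single l 1))
  rw [mp_one, bd_one, bd_one, bdl_map]

theorem mp_mp (f : X → Y) (g : Y → Z) (c : Ch (List X)) :
    mp g (mp f c) = mp (fun x => g (f x)) c := by
  refine hom_ext' ((mp g).comp (mp f)) (mp (fun x => g (f x))) (fun l => ?_) c
  show mp g (mp f (Finsupp.single l 1)) = mp (fun x => g (f x)) (Finsupp.single l 1)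
  rw [mp_one, mp_one, mp_one, List.map_map]
  rfl

theorem mp_congr (f g : X → Y) (c : Ch (List X)) (h : ∀ l ∈ c.support, ∀ x ∈ l, f x = g x) :
    mp f c = mp g c := by
  unfold mp
  apply lin_congr
  intro l hl
  rw [List.map_congr_left (h l hl)]

theorem mp_id (c : Ch (List X)) : mp (fun x => x) c = c := by
  refine hom_ext' (mp (fun x => x)) LinearMap.id (fun l => ?_) c
  rw [mp_one, List.map_id']
  rfl

theorem supp_mp {P : List X → Prop} {Q : List Y → Prop} {f : X → Y} {c : Ch (List X)}
    (h : Supp P c) (h' : ∀ l, P l → Q (l.map f)) : Supp Q (mp f c) := by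
  unfold mp
  exact supp_lin h (fun l hl => supp_single (h' l hl))

theorem supp_bdl (l : List X) :
    Supp (fun l' => l'.length + 1 = l.length ∧ ∀ x ∈ l', x ∈ l) (bdl l) := by
  induction l with
  | nil => exact supp_zero
  | cons x l ih =>
    show Supp _ (Finsupp.single l 1 + cone x (bdl l))
    apply supp_add
    · apply supp_single
      exact ⟨rfl, fun y hy => List.mem_cons_of_mem _ hy⟩
    · refine supp_cone ih (fun l' hl' => ⟨?_, ?_⟩)
      · simp only [List.length_cons]
        omega
      · intro y hy
        rcases List.mem_cons.mp hy with rfl | hy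
        · exact List.mem_cons_self
        · exact List.mem_cons_of_mem _ (hl'.2 y hy)

/-- A face of `x :: l` is `l` or is `x :: l'` for a face `l'` of `l`. -/
theorem mem_bdl_cons {x : X} {l l'' : List X} (h : l'' ∈ (bdl (x :: l)).support) :
    l'' = l ∨ ∃ l' ∈ (bdl l).support, l'' = x :: l' := by
  have h1 : Supp (fun l'' => l'' = l ∨ ∃ l' ∈ (bdl l).support, l'' = x :: l')
      (Finsupp.single l 1 + cone x (bdl l)) := by
    apply supp_add
    · exact supp_single (Or.inl rfl)
    · have h2 : Supp (fun l' => l' ∈ (bdl l).support) (bdl l) := fun _ h => h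
      exact supp_cone h2 (fun l' hl' => Or.inr ⟨l', hl', rfl⟩)
  exact h1 l'' h

/-- the prism over a list -/
private noncomputable def prism (f g : X → Y) : List X → Ch (List Y)
  | [] => 0
  | x :: l => Finsupp.single (f x :: g x :: l.map g) 1 + cone (f x) (prism f g l)

private theorem lin_prism_cone (f g : X → Y) (x : X) (c : Ch (List X)) :
    lin (prism f g) (cone x c) =
      cone (f x) (cone (g x) (mp g c)) + cone (f x) (lin (prism f g) c) := by
  refine hom_ext' ((lin (prism f g)).comp (cone x))
    ((cone (f x)).comp ((cone (g x)).comp (mp g)) + (cone (f x)).comp (lin (prism f g)))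
    (fun l => ?_) c
  show lin (prism f g) (cone x (Finsupp.single l 1)) =
    cone (f x) (cone (g x) (mp g (Finsupp.single l 1))) +
      cone (f x) (lin (prism f g) (Finsupp.single l 1))
  rw [cone_one, lin_single, lin_single, mp_one, cone_one, cone_one]
  rfl

private theorem prism_bd (f g : X → Y) (l : List X) :
    bd (prism f g l) + lin (prism f g) (bdl l) =
      Finsupp.single (l.map f) 1 + Finsupp.single (l.map g) 1 := by
  induction l with
  | nil =>
    show bd 0 + lin (prism f g) 0 = Finsupp.single [] 1 + Finsupp.single [] 1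
    rw [map_zero, map_zero, add_zero]
    exact (ch_add_self _).symm
  | cons x l ih =>
    have h1 : prism f g (x :: l) =
      Finsupp.single (f x :: g x :: l.map g) 1 + cone (f x) (prism f g l) := rfl
    have h2 : bdl (x :: l) = Finsupp.single l 1 + cone x (bdl l) := rfl
    have h3 : bd (Finsupp.single (f x :: g x :: l.map g) 1) =
        Finsupp.single (g x :: l.map g) 1 +
          cone (f x) (Finsupp.single (l.map g) 1 + cone (g x) (mp g (bdl l))) := by
      rw [bd_one, ← bdl_map]
      rfl
    rw [h1, h2, map_add, map_add, h3, bd_cone, lin_single, lin_prism_cone]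
    have h4 : bd (prism f g l) = lin (prism f g) (bdl l) +
        (Finsupp.single (l.map f) 1 + Finsupp.single (l.map g) 1) := by
      rw [← ih]
      have := ch_add_self (lin (prism f g) (bdl l))
      calc bd (prism f g l) = bd (prism f g l) + 0 := (add_zero _).symm
        _ = bd (prism f g l) + (lin (prism f g) (bdl l) + lin (prism f g) (bdl l)) := by rw [this]
        _ = _ := by abel
    rw [h4]
    simp only [map_add, cone_one]
    have ha := ch_add_self (cone (f x) (cone (g x) (mp g (bdl l))))
    have hb := ch_add_self (cone (f x) (lin (prism f g) (bdl l)))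
    have hc := ch_add_self (prism f g l)
    have hd := ch_add_self (Finsupp.single (f x :: l.map g) (1 : ZMod 2))
    simp only [List.map_cons]
    generalize cone (f x) (cone (g x) (mp g (bdl l))) = a at *
    generalize cone (f x) (lin (prism f g) (bdl l)) = b at *
    generalize prism f g l = p at *
    generalize (Finsupp.single (f x :: l.map g) (1 : ZMod 2) : Ch (List Y)) = d at *
    generalize (Finsupp.single (g x :: l.map g) (1 : ZMod 2) : Ch (List Y)) = e at *
    generalize (Finsupp.single (f x :: l.map f) (1 : ZMod 2) : Ch (List Y)) = e' at *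
    calc e + (d + a) + (p + (b + (e' + d))) + (p + (a + b)) =
        (a + a) + (b + b) + (p + p) + (d + d) + (e' + e) := by abel
      _ = e' + e := by rw [ha, hb, hc, hd]; simp

private theorem prism_supp (f g : X → Y) (l : List X) :
    Supp (fun l' => l'.length = l.length + 1 ∧ ∀ y ∈ l', ∃ x ∈ l, y = f x ∨ y = g x)
      (prism f g l) := by
  induction l with
  | nil => exact supp_zero
  | cons x l ih =>
    show Supp _ (Finsupp.single (f x :: g x :: l.map g) 1 + cone (f x) (prism f g l))
    apply supp_add
    · apply supp_single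
      refine ⟨by simp, ?_⟩
      intro y hy
      rcases List.mem_cons.mp hy with rfl | hy
      · exact ⟨x, List.mem_cons_self, Or.inl rfl⟩
      · rcases List.mem_cons.mp hy with rfl | hy
        · exact ⟨x, List.mem_cons_self, Or.inr rfl⟩
        · obtain ⟨x', hx', rfl⟩ := List.mem_map.mp hy
          exact ⟨x', List.mem_cons_of_mem _ hx', Or.inr rfl⟩
    · refine supp_cone ih (fun l' hl' => ⟨?_, ?_⟩)
      · simp only [List.length_cons]
        omega
      · intro y hy
        rcases List.mem_cons.mp hy with rfl | hy
        · exact ⟨x, List.mem_cons_self, Or.inl rfl⟩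
        · obtain ⟨x', hx', h⟩ := hl'.2 y hy
          exact ⟨x', List.mem_cons_of_mem _ hx', h⟩

/-- The prism operator. -/
theorem exists_prism (f g : X → Y) : ∃ pr : List X → Ch (List Y),
    (∀ l, bd (pr l) + lin pr (bdl l) =
      Finsupp.single (l.map f) 1 + Finsupp.single (l.map g) 1) ∧
    ∀ l, Supp (fun l' => l'.length = l.length + 1 ∧ ∀ y ∈ l', ∃ x ∈ l, y = f x ∨ y = g x)
      (pr l) :=
  ⟨prism f g, prism_bd f g, prism_supp f g⟩

end Pool.Agent.VNR
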