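import Mathlib
import Pool.Agent.VNR.Defs
import Pool.Agent.VNR.AlgA
/-!
# The carrier theorem
-/
namespace Pool.Agent.VNR

open Classical in
/-- The chain homotopy, constructed by well founded recursion. -/
private noncomputable def carU {β γ : Type} (Dβ : β → Ch β) (Dγ : γ → Ch γ) (deg : β → ℕ)
    (E : β → Ch γ) (Car : β → γ → Prop) (u0 : β → Ch γ) : β → Ch γ :=
  WellFounded.fix (measure deg).wf (fun b rec =>
    if deg b = 0 then u0 b else
      if h : ∃ w, Supp (Car b) w ∧ lin Dγ w =
          E b + ∑ b' ∈ (Dβ b).support, (if h : deg b' < deg b then rec b' h else 0)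
      then h.choose else 0)

open Classical in
private theorem carU_eq {β γ : Type} (Dβ : β → Ch β) (Dγ : γ → Ch γ) (deg : β → ℕ)
    (E : β → Ch γ) (Car : β → γ → Prop) (u0 : β → Ch γ) (b : β) :
    carU Dβ Dγ deg E Car u0 b =
    if deg b = 0 then u0 b else
      if h : ∃ w, Supp (Car b) w ∧ lin Dγ w =
          E b + ∑ b' ∈ (Dβ b).support,
            (if _h : deg b' < deg b then carU Dβ Dγ deg E Car u0 b' else 0)
      then h.choose else 0 := by
  rw [carU, WellFounded.fix_eq]

/-- Acyclic carriers: chain maps and chain homotopies can be constructed by induction on the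
dimension `deg`. -/
theorem carrier {β γ : Type} (Dβ : β → Ch β) (Dγ : γ → Ch γ) (deg : β → ℕ) (P : β → Prop)
    (hP : ∀ b, P b → Supp (fun b' => P b' ∧ deg b' < deg b) (Dβ b))
    (hD : ∀ b, P b → lin Dβ (Dβ b) = 0)
    (E : β → Ch γ) (hE : ∀ b, P b → lin Dγ (E b) = lin E (Dβ b))
    (Car : β → γ → Prop) (u0 : β → Ch γ)
    (h0 : ∀ b, P b → deg b = 0 → Supp (Car b) (u0 b) ∧ lin Dγ (u0 b) = E b)
    (fill : ∀ b, P b → deg b ≠ 0 → ∀ ζ : Ch γ,
      Supp (fun z => z ∈ (E b).support ∨ ∃ b' ∈ (Dβ b).support, Car b' z) ζ → lin Dγ ζ = 0 →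
      ∃ ω, Supp (Car b) ω ∧ lin Dγ ω = ζ) :
    ∃ u : β → Ch γ, (∀ b, P b → deg b = 0 → u b = u0 b) ∧
      ∀ b, P b → Supp (Car b) (u b) ∧ lin Dγ (u b) = E b + lin u (Dβ b) := by
  classical
  have hzero : ∀ b, P b → deg b = 0 → carU Dβ Dγ deg E Car u0 b = u0 b := by
    intro b _ hb
    rw [carU_eq, if_pos hb]
  refine ⟨carU Dβ Dγ deg E Car u0, hzero, ?_⟩
  have key : ∀ n b, deg b = n → P b →
      Supp (Car b) (carU Dβ Dγ deg E Car u0 b) ∧
        lin Dγ (carU Dβ Dγ deg E Car u0 b) = E b + lin (carU Dβ Dγ deg E Car u0) (Dβ b) := by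
    intro n
    induction n using Nat.strong_induction_on with
    | _ n ih =>
      intro b hn hb
      have hdec : ∀ b' ∈ (Dβ b).support, P b' ∧ deg b' < deg b := hP b hb
      by_cases hd0 : deg b = 0
      · have hDb : Dβ b = 0 := by
          rw [← Finsupp.support_eq_empty, Finset.eq_empty_iff_forall_notMem]
          intro b' hb'
          have := (hdec b' hb').2
          omega
        rw [hzero b hb hd0, hDb, map_zero, add_zero]
        exact h0 b hb hd0
      · have IH : ∀ b' ∈ (Dβ b).support, Supp (Car b') (carU Dβ Dγ deg E Car u0 b') ∧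
            lin Dγ (carU Dβ Dγ deg E Car u0 b') =
              E b' + lin (carU Dβ Dγ deg E Car u0) (Dβ b') := by
          intro b' hb'
          exact ih (deg b') (by rw [← hn]; exact (hdec b' hb').2) b' rfl (hdec b' hb').1
        have hsum : ∑ b' ∈ (Dβ b).support,
            (if _h : deg b' < deg b then carU Dβ Dγ deg E Car u0 b' else 0) =
            lin (carU Dβ Dγ deg E Car u0) (Dβ b) := by
          rw [lin_eq_sum]
          apply Finset.sum_congr rfl
          intro b' hb'
          rw [dif_pos (hdec b' hb').2]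
        have hsup : Supp (fun z => z ∈ (E b).support ∨ ∃ b' ∈ (Dβ b).support, Car b' z)
            (E b + lin (carU Dβ Dγ deg E Car u0) (Dβ b)) := by
          intro z hz
          rcases Finset.mem_union.1 (Finsupp.support_add hz) with h | h
          · exact Or.inl h
          · obtain ⟨b', hb', hz'⟩ := mem_lin h
            exact Or.inr ⟨b', hb', (IH b' hb').1 z hz'⟩
        have hcyc : lin Dγ (E b + lin (carU Dβ Dγ deg E Car u0) (Dβ b)) = 0 := by
          have h1 : lin (fun x => lin Dγ (carU Dβ Dγ deg E Car u0 x)) (Dβ b) =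
              lin (fun x => E x + lin (carU Dβ Dγ deg E Car u0) (Dβ x)) (Dβ b) :=
            lin_congr _ _ _ (fun x hx => (IH x hx).2)
          rw [map_add, lin_lin, hE b hb, h1, lin_add_fun, ← add_assoc, ch_add_self, zero_add,
            ← lin_lin, hD b hb, map_zero]
        obtain ⟨ω, hω1, hω2⟩ := fill b hb hd0 _ hsup hcyc
        have hex : ∃ w, Supp (Car b) w ∧ lin Dγ w =
            E b + ∑ b' ∈ (Dβ b).support,
              (if _h : deg b' < deg b then carU Dβ Dγ deg E Car u0 b' else 0) :=
          ⟨ω, hω1, by rw [hsum]; exact hω2⟩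
        have hu : carU Dβ Dγ deg E Car u0 b = hex.choose := by
          rw [carU_eq, if_neg hd0, dif_pos hex]
        have h2 := hex.choose_spec
        rw [← hu, hsum] at h2
        exact h2
  intro b hb
  exact key (deg b) b rfl hb

end Pool.Agent.VNR
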