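import Mathlib
import Pool.Agent.VNR.Defs
import Pool.Agent.VNR.Alg
/-!
# Filling near a fibre
-/
namespace Pool.Agent.VNR

variable {G : Type} [Group G] {L : ℕ → G → Prop}

private theorem near_a (hL : LenF L) {z x : G} {n r : ℕ} {p : G × G} (h : Lam L z n p)
    (h1 : L r (x⁻¹ * p.1)) : L (n + r) (x⁻¹ * z * p.2) := by
  have h2 := hL.mul _ _ _ _ h1 h.1
  rw [add_comm r n] at h2
  have e : x⁻¹ * p.1 * (p.1⁻¹ * z * p.2) = x⁻¹ * z * p.2 := by group
  rwa [e] at h2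

private theorem near_b (hL : LenF L) {z x : G} {n r : ℕ} {p : G × G} (h : Lam L z n p)
    (h1 : L r (p.1⁻¹ * x)) : L (n + r) (p.2⁻¹ * z * x) := by
  have h2 := hL.mul _ _ _ _ h.2 h1
  have e : p.2⁻¹ * z * p.1 * (p.1⁻¹ * x) = p.2⁻¹ * z * x := by group
  rwa [e] at h2

theorem near_fill (hL : LenF L) (hA : Acyc L) : ∀ N r : ℕ, ∃ R S : ℕ, ∀ (z : G) (n : ℕ) (x : G)
    (k : ℕ), k ≤ N → ∀ c : Ch (List (G × G)), Supp (InLx L z n r k x) c → bd c = 0 →
    ∃ d : Ch (List (G × G)), Supp (InLx L z (n + S) R (k + 1) x) d ∧ bd d = c := by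
  intro N r
  obtain ⟨R0, S0, hRS⟩ := hA N r
  refine ⟨r + R0, r + S0, ?_⟩
  intro z n x k hk c hc hbc
  obtain ⟨pr, hpr1, hpr2⟩ := exists_prism (fun p : G × G => p) (fun p : G × G => (x, p.2))
  -- the prism
  have hpr3 : bd (lin pr c) + lin pr (bd c) =
      c + mp (fun p : G × G => (x, p.2)) c := by
    have e1 : bd (lin pr c) = lin (fun l => bd (pr l)) c := lin_lin pr bdl c
    have e2 : lin pr (bd c) = lin (fun l => lin pr (bdl l)) c := lin_lin bdl pr c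
    rw [e1, e2, ← lin_add_fun]
    have e3 : lin (fun l => bd (pr l) + lin pr (bdl l)) c =
        lin (fun l => Finsupp.single (l.map (fun p : G × G => p)) 1 +
          Finsupp.single (l.map (fun p : G × G => (x, p.2))) 1) c :=
      lin_congr _ _ c (fun l _ => hpr1 l)
    rw [e3, lin_add_fun]
    have e4 := mp_id c
    unfold mp at e4 ⊢
    rw [e4]
  rw [hbc, map_zero, add_zero] at hpr3
  -- the fibre
  have hmc : bd (mp (fun p : G × G => (x, p.2)) c) = 0 := by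
    rw [bd_mp, hbc, map_zero]
  have hx1 : ∀ s : ℕ, L s (x⁻¹ * x) := by
    intro s
    rw [inv_mul_cancel]
    exact hL.mono _ _ _ (Nat.zero_le s) hL.one
  obtain ⟨d', hd', hbd'⟩ := hRS (x⁻¹ * z ^ 2 * x) (n + r) (n + r) k hk
    (mp (fun p : G × G => x⁻¹ * z * p.2) c)
    (by
      refine supp_mp (Q := InI L (x⁻¹ * z ^ 2 * x) (n + r) (n + r) r k) hc ?_
      rintro l ⟨⟨hl1, hl2, hl3⟩, hl4⟩
      refine ⟨by rw [List.length_map, hl1], ?_, ?_⟩
      · intro p hp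
        obtain ⟨q, hq, rfl⟩ := List.mem_map.mp hp
        refine ⟨near_a hL (hl2 q hq) (hl4 q hq).1, ?_⟩
        have h := near_b hL (hl2 q hq) (hl4 q hq).2
        have e : (x⁻¹ * z * q.2)⁻¹ * (x⁻¹ * z ^ 2 * x) = q.2⁻¹ * z * x := by
          rw [pow_two]; group
        rwa [e]
      · intro p hp p' hp'
        obtain ⟨q, hq, rfl⟩ := List.mem_map.mp hp
        obtain ⟨q', hq', rfl⟩ := List.mem_map.mp hp'
        have h := (hl3 q hq q' hq').2
        have e : (x⁻¹ * z * q.2)⁻¹ * (x⁻¹ * z * q'.2) = q.2⁻¹ * q'.2 := by group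
        rwa [e])
    (by rw [bd_mp, hbc, map_zero])
  have hback : bd (mp (fun p : G => (x, z⁻¹ * x * p)) d') = mp (fun p : G × G => (x, p.2)) c := by
    rw [bd_mp, hbd', mp_mp]
    apply mp_congr
    intro l _ q _
    have e : z⁻¹ * x * (x⁻¹ * z * q.2) = q.2 := by group
    show (x, z⁻¹ * x * (x⁻¹ * z * q.2)) = (x, q.2)
    rw [e]
  refine ⟨lin pr c + mp (fun p : G => (x, z⁻¹ * x * p)) d', ?_, ?_⟩
  · apply supp_add
    · intro l' hl'
      obtain ⟨l, hl, hl2⟩ := mem_lin hl'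
      obtain ⟨⟨h1, h2, h3⟩, h4⟩ := hc l hl
      obtain ⟨g1, g2⟩ := hpr2 l l' hl2
      have hr : r ≤ r + R0 := Nat.le_add_right _ _
      have hn : n ≤ n + (r + S0) := Nat.le_add_right _ _
      have hn' : n + r ≤ n + (r + S0) := by omega
      refine ⟨⟨by rw [g1, h1], ?_, ?_⟩, ?_⟩
      · intro p hp
        obtain ⟨q, hq, h | h⟩ := g2 p hp
        · rw [h]
          exact ⟨hL.mono _ _ _ hn (h2 q hq).1, hL.mono _ _ _ hn (h2 q hq).2⟩
        · have k1 : L (n + (r + S0)) (x⁻¹ * z * q.2) :=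
            hL.mono _ _ _ hn' (near_a hL (h2 q hq) (h4 q hq).1)
          have k2 : L (n + (r + S0)) (q.2⁻¹ * z * x) :=
            hL.mono _ _ _ hn' (near_b hL (h2 q hq) (h4 q hq).2)
          rw [h]
          exact ⟨k1, k2⟩
      · intro p hp p' hp'
        obtain ⟨q, hq, h | h⟩ := g2 p hp <;> obtain ⟨q', hq', h' | h'⟩ := g2 p' hp' <;>
          rw [h, h']
        · exact ⟨hL.mono _ _ _ hr (h3 q hq q' hq').1, hL.mono _ _ _ hr (h3 q hq q' hq').2⟩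
        · exact ⟨hL.mono _ _ _ hr (h4 q hq).2, hL.mono _ _ _ hr (h3 q hq q' hq').2⟩
        · exact ⟨hL.mono _ _ _ hr (h4 q' hq').1, hL.mono _ _ _ hr (h3 q hq q' hq').2⟩
        · exact ⟨hx1 _, hL.mono _ _ _ hr (h3 q hq q' hq').2⟩
      · intro p hp
        obtain ⟨q, hq, h | h⟩ := g2 p hp
        · rw [h]
          exact ⟨hL.mono _ _ _ hr (h4 q hq).1, hL.mono _ _ _ hr (h4 q hq).2⟩
        · rw [h]
          exact ⟨hx1 _, hx1 _⟩
    · refine supp_mp (Q := InLx L z (n + (r + S0)) (r + R0) (k + 1) x) hd' ?_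
      rintro l ⟨h1, h2, h3⟩
      refine ⟨⟨by rw [List.length_map, h1], ?_, ?_⟩, ?_⟩
      · intro p hp
        obtain ⟨q, hq, rfl⟩ := List.mem_map.mp hp
        obtain ⟨g1, g2⟩ := h2 q hq
        constructor
        · have e : x⁻¹ * z * (z⁻¹ * x * q) = q := by group
          show L (n + (r + S0)) (x⁻¹ * z * (z⁻¹ * x * q))
          rw [e]
          exact hL.mono _ _ _ (by omega) g1
        · have e : (z⁻¹ * x * q)⁻¹ * z * x = q⁻¹ * (x⁻¹ * z ^ 2 * x) := by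
            rw [pow_two]; group
          show L (n + (r + S0)) ((z⁻¹ * x * q)⁻¹ * z * x)
          rw [e]
          exact hL.mono _ _ _ (by omega) g2
      · intro p hp p' hp'
        obtain ⟨q, hq, rfl⟩ := List.mem_map.mp hp
        obtain ⟨q', hq', rfl⟩ := List.mem_map.mp hp'
        refine ⟨hx1 _, ?_⟩
        have e : (z⁻¹ * x * q)⁻¹ * (z⁻¹ * x * q') = q⁻¹ * q' := by group
        show L (r + R0) ((z⁻¹ * x * q)⁻¹ * (z⁻¹ * x * q'))
        rw [e]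
        exact hL.mono _ _ _ (by omega) (h3 q hq q' hq')
      · intro p hp
        obtain ⟨q, hq, rfl⟩ := List.mem_map.mp hp
        exact ⟨hx1 _, hx1 _⟩
  · rw [map_add, hpr3, hback, add_assoc, ch_add_self, add_zero]

/-- The fibres are not empty. -/
theorem fibre_nonempty (hL : LenF L) (z : G) (n : ℕ) (x : G)
    (h : L (2 * n) (x⁻¹ * z ^ 2 * x)) : ∃ y : G, Lam L z n (x, y) := by
  rw [two_mul] at h
  obtain ⟨p, q, hp, hq, e⟩ := hL.split n n _ h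
  refine ⟨z⁻¹ * x * p, ?_, ?_⟩
  · have e1 : x⁻¹ * z * (z⁻¹ * x * p) = p := by group
    show L n (x⁻¹ * z * (z⁻¹ * x * p))
    rwa [e1]
  · have e1 : (z⁻¹ * x * p)⁻¹ * z * x = p⁻¹ * (x⁻¹ * z ^ 2 * x) := by
      rw [pow_two]; group
    show L n ((z⁻¹ * x * p)⁻¹ * z * x)
    rw [e1, e, inv_mul_cancel_left]
    exact hq

/-- Filling in the base. -/
theorem base_fill (hL : LenF L) (hA : Acyc L) : ∀ N r : ℕ, ∃ R : ℕ, ∀ k : ℕ, k ≤ N →
    ∀ c : Ch (List G), Supp (fun l => l.length = k + 1 ∧ ∀ p ∈ l, ∀ q ∈ l, L r (p⁻¹ * q)) c →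
    bd c = 0 → ∃ d : Ch (List G),
      Supp (fun l => l.length = k + 2 ∧ ∀ p ∈ l, ∀ q ∈ l, L R (p⁻¹ * q)) d ∧ bd d = c := by
  intro N r
  obtain ⟨R, S, hRS⟩ := hA N r
  refine ⟨R, ?_⟩
  intro k hk c hc hbc
  choose f hf using hL.ex
  obtain ⟨a, ha⟩ : ∃ a : ℕ, ∀ l ∈ c.support, ∀ p ∈ l, f p ≤ a ∧ f (p⁻¹ * 1) ≤ a := by
    refine ⟨∑ l ∈ c.support, (l.map (fun p => f p + f (p⁻¹ * 1))).sum, ?_⟩
    intro l hl p hp
    have h1 : (l.map (fun p => f p + f (p⁻¹ * 1))).sum ≤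
        ∑ l ∈ c.support, (l.map (fun p => f p + f (p⁻¹ * 1))).sum :=
      Finset.single_le_sum (f := fun l : List G => (l.map (fun p => f p + f (p⁻¹ * 1))).sum)
        (fun _ _ => Nat.zero_le _) hl
    have h2 : f p + f (p⁻¹ * 1) ≤ (l.map (fun p => f p + f (p⁻¹ * 1))).sum :=
      List.single_le_sum (fun _ _ => Nat.zero_le _) _ (List.mem_map.mpr ⟨p, hp, rfl⟩)
    omega
  obtain ⟨d, hd, hbd⟩ := hRS 1 a a k hk c (by
    intro l hl
    obtain ⟨h1, h2⟩ := hc l hl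
    refine ⟨h1, ?_, h2⟩
    intro p hp
    obtain ⟨g1, g2⟩ := ha l hl p hp
    exact ⟨hL.mono _ _ _ g1 (hf _), hL.mono _ _ _ g2 (hf _)⟩) hbc
  refine ⟨d, ?_, hbd⟩
  intro l hl
  obtain ⟨h1, _, h3⟩ := hd l hl
  exact ⟨h1, h3⟩

end Pool.Agent.VNR
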