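import Mathlib
import Pool.Agent.VNR.Defs
import Pool.Agent.VNR.Alg
import Pool.Agent.VNR.Near
/-!
# The equivariant chains
-/
namespace Pool.Agent.VNR

variable {G : Type} [Group G] {L : ℕ → G → Prop}

private theorem chains_lam_mono (hL : LenF L) {z : G} {n n' : ℕ} (h : n ≤ n') {p : G × G}
    (hp : Lam L z n p) : Lam L z n' p :=
  ⟨hL.mono _ _ _ h hp.1, hL.mono _ _ _ h hp.2⟩

private theorem chains_inL_mono (hL : LenF L) {z : G} {n n' r r' k : ℕ} (hn : n ≤ n')
    (hr : r ≤ r') {l : List (G × G)} (h : InL L z n r k l) : InL L z n' r' k l := by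
  obtain ⟨h1, h2, h3⟩ := h
  refine ⟨h1, fun p hp => chains_lam_mono hL hn (h2 p hp), fun p hp q hq => ?_⟩
  obtain ⟨h4, h5⟩ := h3 p hp q hq
  exact ⟨hL.mono _ _ _ hr h4, hL.mono _ _ _ hr h5⟩

private theorem chains_inL_swap {z : G} {n r k : ℕ} {l : List (G × G)}
    (h : InL L z n r k l) : InL L z n r k (l.map Prod.swap) := by
  obtain ⟨h1, h2, h3⟩ := h
  refine ⟨by rw [List.length_map]; exact h1, ?_, ?_⟩
  · intro p hp
    obtain ⟨q, hq, rfl⟩ := List.mem_map.mp hp
    exact ⟨(h2 q hq).2, (h2 q hq).1⟩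
  · intro p hp q hq
    obtain ⟨p', hp', rfl⟩ := List.mem_map.mp hp
    obtain ⟨q', hq', rfl⟩ := List.mem_map.mp hq
    exact ⟨(h3 p' hp' q' hq').2, (h3 p' hp' q' hq').1⟩

private theorem chains_swap_swap (c : Ch (List (G × G))) : mp Prod.swap (mp Prod.swap c) = c := by
  rw [mp_mp]
  have : (fun x : G × G => Prod.swap (Prod.swap x)) = fun x => x := by
    funext x
    exact Prod.swap_swap x
  rw [this, mp_id]

theorem exists_chains (hL : LenF L) (hA : AcycL L) (D : ℕ) : ∃ R S : ℕ, ∀ (z : G) (n : ℕ),
    (∀ x : G, L (2 * n) (x⁻¹ * z ^ 2 * x)) → ∃ (c : ℕ → Ch (List (G × G))) (p : G × G),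
      c 0 = Finsupp.single [p] 1 ∧ (∀ i, i < D → bd (c (i + 1)) = c i + mp Prod.swap (c i)) ∧
      ∀ i, i ≤ D → Supp (InL L z (n + S) R i) (c i) := by
  induction D with
  | zero =>
    refine ⟨0, 0, fun z n hz => ?_⟩
    obtain ⟨y, hy⟩ := fibre_nonempty hL z n 1 (hz 1)
    refine ⟨fun _ => Finsupp.single [(1, y)] 1, (1, y), rfl, fun i hi => absurd hi (by omega), ?_⟩
    intro i hi
    obtain rfl : i = 0 := by omega
    apply supp_single
    refine ⟨rfl, ?_, ?_⟩
    · intro p hp
      rw [List.mem_singleton] at hp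
      rw [hp]
      exact hy
    · intro p hp q hq
      rw [List.mem_singleton] at hp hq
      rw [hp, hq]
      refine ⟨?_, ?_⟩
      · rw [inv_mul_cancel]; exact hL.one
      · rw [inv_mul_cancel]; exact hL.one
  | succ D ih =>
    obtain ⟨R, S, hRS⟩ := ih
    obtain ⟨R', S', hRS'⟩ := hA D R
    refine ⟨max R R', S + S', fun z n hz => ?_⟩
    obtain ⟨c, p, hc0, hc1, hc2⟩ := hRS z n hz
    have hz' : ∀ x : G, L (2 * (n + S)) (x⁻¹ * z ^ 2 * x) := fun x =>
      hL.mono _ _ _ (by omega) (hz x)
    have hcyc : bd (c D + mp Prod.swap (c D)) = 0 := by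
      rw [map_add, bd_mp]
      rcases Nat.eq_zero_or_pos D with h0 | h0
      · subst h0
        rw [hc0]
        have e1 : bd (Finsupp.single [p] 1 : Ch (List (G × G))) = Finsupp.single [] 1 := by
          unfold bd
          rw [lin_single]
          show Finsupp.single [] 1 + cone p (bdl []) = _
          show Finsupp.single [] 1 + cone p 0 = _
          rw [map_zero, add_zero]
        rw [e1]
        unfold mp
        rw [lin_single]
        exact ch_add_self _
      · obtain ⟨i, rfl⟩ : ∃ i, D = i + 1 := ⟨D - 1, by omega⟩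
        rw [hc1 i (by omega), map_add, chains_swap_swap, add_comm (mp Prod.swap (c i)) (c i)]
        exact ch_add_self _
    have hsup : Supp (InL L z (n + S) R D) (c D + mp Prod.swap (c D)) :=
      supp_add (hc2 D le_rfl) (supp_mp (hc2 D le_rfl) (fun l hl => chains_inL_swap hl))
    obtain ⟨d, hd1, hd2⟩ := hRS' z (n + S) hz' D le_rfl _ hsup hcyc
    refine ⟨Function.update c (D + 1) d, p, ?_, ?_, ?_⟩
    · rw [Function.update_of_ne (by omega)]
      exact hc0
    · intro i hi
      rcases Nat.lt_or_ge i D with h | h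
      · rw [Function.update_of_ne (by omega), Function.update_of_ne (by omega)]
        exact hc1 i h
      · obtain rfl : i = D := by omega
        rw [Function.update_self, Function.update_of_ne (by omega)]
        exact hd2
    · intro i hi
      rcases Nat.lt_or_ge i (D + 1) with h | h
      · rw [Function.update_of_ne (by omega)]
        exact supp_mono (hc2 i (by omega)) (fun l hl => chains_inL_mono hL (by omega)
          (le_max_left _ _) hl)
      · obtain rfl : i = D + 1 := by omega
        rw [Function.update_self]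
        exact supp_mono hd1 (fun l hl => chains_inL_mono hL (by omega) (le_max_right _ _) hl)

end Pool.Agent.VNR
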