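import Mathlib
import Pool.Agent.VNR.Defs
import Pool.Agent.VNP.KyFan
/-!
# Ky Fan's lemma mod 2 (adapter)
-/
namespace Pool.Agent.VNR

private theorem lin_one {X Y : Type} (f : X → Ch Y) (x : X) :
    lin f (Finsupp.single x 1) = f x := by
  unfold lin
  rw [Finsupp.linearCombination_single, one_smul]

private theorem cone_eq' {X : Type} (x : X) : cone x = VNP.cone x := by
  apply VNP.ch_ext
  intro t
  rw [VNP.cone_single]
  exact lin_one _ _

private theorem bdl_eq' {X : Type} (t : List X) : bdl t = VNP.bdL t := by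
  induction t with
  | nil => rfl
  | cons x t ih =>
    rw [VNP.bdL_cons, ← ih, ← cone_eq']
    rfl

private theorem bd_eq' {X : Type} (c : Ch (List X)) : bd c = VNP.bd c := by
  have h : bd = VNP.bd (V := X) := by
    apply VNP.ch_ext
    intro t
    rw [VNP.bd_single_one, ← bdl_eq']
    exact lin_one _ _
  rw [h]

private theorem mp_eq' {X : Type} (f : X → X) (c : Ch (List X)) : mp f c = VNP.mapC f c := by
  have h : mp f = VNP.mapC f := by
    apply VNP.ch_ext
    intro t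
    rw [VNP.mapC_single]
    exact lin_one _ _
  rw [h]

theorem kyFan {X : Type} (D : ℕ) (V : X → Prop) (ka : X → X) (lam : X → ℤ) (rel : X → X → Prop)
    (hV : ∀ x, V x → V (ka x) ∧ lam x ≠ 0 ∧ |lam x| ≤ D ∧ lam (ka x) = - lam x)
    (hr : ∀ x y, V x → V y → rel x y → lam y ≠ - lam x)
    (c : ℕ → Ch (List X)) (x0 : X) (h0 : c 0 = Finsupp.single [x0] 1)
    (hc : ∀ i, i < D → bd (c (i + 1)) = c i + mp ka (c i))
    (hs : ∀ i, i ≤ D → Supp (fun l => l.length = i + 1 ∧ (∀ x ∈ l, V x) ∧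
      ∀ x ∈ l, ∀ y ∈ l, rel x y) (c i)) : False := by
  refine VNP.kyFan lam ka (fun x y => V x ∧ V y ∧ rel x y) D c x0 h0 ?_ ?_ ?_ ?_ ?_
  · intro i hi
    rw [VNP.mem_on]
    intro t ht
    obtain ⟨h1, h2, h3⟩ := hs i hi t ht
    exact ⟨h1, fun x hx y hy => ⟨h2 x hx, h2 y hy, h3 x hx y hy⟩⟩
  · intro i hi
    rw [← bd_eq', ← mp_eq']
    exact hc i hi
  · rintro x ⟨hx, -, -⟩
    exact (hV x hx).2.2.2
  · rintro x ⟨hx, -, -⟩
    exact ⟨Int.one_le_abs (hV x hx).2.1, (hV x hx).2.2.1⟩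
  · rintro x y ⟨hx, hy, hxy⟩
    exact hr x y hx hy hxy

end Pool.Agent.VNR
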