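import Mathlib
import Pool.Agent.VNR.Defs
import Pool.Agent.VNR.Alg
import Pool.Agent.VNR.KyFan
import Pool.Agent.VNR.Chains
/-!
# Powers of elements with finitely many conjugates
-/
namespace Pool.Agent.VNR

variable {G : Type} [Group G] {L : ℕ → G → Prop}

/-- If `2 n` bounds the displacement of `z ^ 2` then `n + C` bounds the displacement of `z`
somewhere. -/
theorem exists_short_disp (hL : LenF L) (hA : AcycL L) {D : ℕ} (hlab : LabG L D) : ∃ C : ℕ,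
    ∀ (z : G) (n : ℕ), (∀ x : G, L (2 * n) (x⁻¹ * z ^ 2 * x)) →
      ∃ x : G, L (n + C) (x⁻¹ * z * x) := by
  obtain ⟨R, S, hRS⟩ := exists_chains hL hA D
  obtain ⟨Cl, lam, hlam⟩ := hlab R
  obtain ⟨Ci, hCi⟩ := hL.inv
  refine ⟨S + Ci * Cl + Cl + 1, fun z n hz => ?_⟩
  by_contra hno
  push Not at hno
  obtain ⟨c, p, h0, hc, hs⟩ := hRS z n hz
  have hfar : ∀ q : G × G, Lam L z (n + S) q → ¬ L Cl (q.1⁻¹ * q.2) := by
    intro q hq hcl
    have h1 := hL.mul _ _ _ _ hq.1 (hCi _ _ hcl)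
    have h2 : q.1⁻¹ * z * q.2 * (q.1⁻¹ * q.2)⁻¹ = q.1⁻¹ * z * q.1 := by group
    rw [h2] at h1
    exact hno q.1 (hL.mono _ _ _ (by omega) h1)
  have hswap : ∀ q : G × G, Lam L z (n + S) q → Lam L z (n + S) q.swap :=
    fun q hq => ⟨hq.2, hq.1⟩
  refine kyFan D (Lam L z (n + S)) Prod.swap lam (Nr L R) ?_ ?_ c p h0 hc hs
  · intro q hq
    obtain ⟨h1, h2, h3, -⟩ := hlam q (hfar q hq) (hfar q.swap (hswap q hq))
    exact ⟨hswap q hq, h1, h2, h3⟩
  · intro q q' hq hq' hrel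
    exact (hlam q (hfar q hq) (hfar q.swap (hswap q hq))).2.2.2 q' (hfar q' hq')
      (hfar q'.swap (hswap q' hq')) hrel

end Pool.Agent.VNR
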