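import Mathlib
import Pool.Agent.VNR.Defs
import Pool.Agent.VNP.End
/-!
# There is no distorted element
-/
namespace Pool.Agent.VNR

variable {G : Type} [Group G] {L : ℕ → G → Prop}

theorem not_dist (hL : LenF L) (h : ∃ C : ℕ, ∀ (z : G) (n : ℕ),
      (∀ x : G, L (2 * n) (x⁻¹ * z ^ 2 * x)) → ∃ x : G, L (n + C) (x⁻¹ * z * x))
    (z : G) (hz : Dist z) : False := by
  classical
  obtain ⟨hzord, ⟨F0, hF0, hzconj⟩, x, y, F, hF, hsq⟩ := hz
  obtain ⟨C, hC⟩ := h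
  have hspec : ∀ g : G, L (Nat.find (hL.ex g)) g := fun g => Nat.find_spec (hL.ex g)
  have hmin : ∀ (g : G) (n : ℕ), L n g → Nat.find (hL.ex g) ≤ n :=
    fun g n hn => Nat.find_min' (hL.ex g) hn
  have hmul : ∀ g k : G, Nat.find (hL.ex (g * k)) ≤ Nat.find (hL.ex g) + Nat.find (hL.ex k) :=
    fun g k => hmin _ _ (hL.mul _ _ _ _ (hspec g) (hspec k))
  have hone : Nat.find (hL.ex (1 : G)) = 0 := Nat.le_zero.1 (hmin 1 0 hL.one)
  have hrange : (Set.range (fun g : G => g⁻¹ * z * g)).Finite :=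
    hF0.subset (by rintro _ ⟨g, rfl⟩; exact hzconj g)
  obtain ⟨C0, hC0⟩ := Pool.Agent.VNP.conj_len (fun g => Nat.find (hL.ex g)) hmul z hrange
  refine Pool.Agent.VNP.end_group (fun g => Nat.find (hL.ex g)) hone hmul ?_ z x y F hF ?_ ?_
    (C + 3 * C0 + 1) ?_
  · intro n
    refine (hL.fin n).subset ?_
    intro g hg
    exact hL.mono _ _ _ hg (hspec g)
  · intro n hn hzn
    exact hzord (isOfFinOrder_iff_pow_eq_one.2 ⟨n, hn, hzn⟩)
  · intro n
    obtain ⟨f, hf, hfe⟩ := hsq n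
    refine ⟨f, hf, ?_⟩
    rw [hfe, inv_pow, inv_pow]
  · intro m _
    set n := (Nat.find (hL.ex (z ^ (2 * m))) + 2 * C0 + 1) / 2 with hn
    have h1 : ∀ u : G, L (2 * n) (u⁻¹ * (z ^ m) ^ 2 * u) := by
      intro u
      have h2 : (z ^ m) ^ 2 = z ^ (2 * m) := by rw [← pow_mul, Nat.mul_comm]
      rw [h2]
      have h3 := (hC0 (2 * m) u).1
      refine hL.mono _ _ _ ?_ (hspec _)
      omega
    obtain ⟨u, hu⟩ := hC (z ^ m) n h1
    have h4 := hmin _ _ hu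
    have h5 := (hC0 m u).2
    omega

end Pool.Agent.VNR
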