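import Mathlib
import Pool.Agent.VNR.Defs
import Pool.Agent.VNR.Alg
import Pool.Agent.VNR.Carrier
import Pool.Agent.VNR.Near
/-!
# From the base to the total space
-/
namespace Pool.Agent.VNR

variable {G : Type} [Group G] {L : ℕ → G → Prop}

/-- Tuples of pairs over a neighbourhood of the first point of `l`. -/
def Ov (L : ℕ → G → Prop) (z : G) (n R : ℕ) (l : List G) (l' : List (G × G)) : Prop :=
  l'.length = l.length ∧ (∀ p ∈ l', Lam L z n p) ∧ (∀ p ∈ l', ∀ q ∈ l', Nr L R p q) ∧
    ∀ x t, l = x :: t → ∀ p ∈ l', L R (x⁻¹ * p.1) ∧ L R (p.1⁻¹ * x)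

private theorem theta_lam_mono (hL : LenF L) {z : G} {m n : ℕ} (h : m ≤ n) {p : G × G}
    (hp : Lam L z m p) : Lam L z n p := ⟨hL.mono _ _ _ h hp.1, hL.mono _ _ _ h hp.2⟩

private theorem theta_nr_mono (hL : LenF L) {m n : ℕ} (h : m ≤ n) {p q : G × G}
    (hp : Nr L m p q) : Nr L n p q := ⟨hL.mono _ _ _ h hp.1, hL.mono _ _ _ h hp.2⟩

theorem exists_theta (hL : LenF L) (hA : Acyc L) : ∀ N r : ℕ, ∃ R S : ℕ, ∀ (z : G) (n : ℕ),
    (∀ x : G, L (2 * n) (x⁻¹ * z ^ 2 * x)) → ∃ Θ : List G → Ch (List (G × G)),
      Θ [] = Finsupp.single [] 1 ∧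
      ∀ l : List G, l.length ≤ N → (∀ p ∈ l, ∀ q ∈ l, L r (p⁻¹ * q)) →
        Supp (Ov L z (n + S) R l) (Θ l) ∧ bd (Θ l) = lin Θ (bdl l) := by
  classical
  intro N r
  choose RF SF hF using near_fill hL hA
  -- the constants
  let cs : ℕ → ℕ × ℕ := fun j => Nat.rec ((0, 0) : ℕ × ℕ)
    (fun _ rs => (RF N (r + rs.1), rs.2 + SF N (r + rs.1))) j
  have cs_succ : ∀ j, cs (j + 1) =
      (RF N (r + (cs j).1), (cs j).2 + SF N (r + (cs j).1)) := fun j => rfl
  refine ⟨∑ j ∈ Finset.range (N + 1), (cs j).1, ∑ j ∈ Finset.range (N + 1), (cs j).2, ?_⟩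
  intro z n hz
  let P : List G → Prop := fun l => l.length ≤ N ∧ ∀ p ∈ l, ∀ q ∈ l, L r (p⁻¹ * q)
  let Car : List G → List (G × G) → Prop := fun l w =>
    (l = [] ∧ w = []) ∨
      ∃ x t, l = x :: t ∧ InLx L z (n + (cs l.length).2) (cs l.length).1 t.length x w
  have hPface : ∀ l, P l → Supp (fun l' => P l' ∧ l'.length < l.length) (bdl l) := by
    intro l hl
    refine supp_mono (supp_bdl l) ?_
    intro l' hl'
    exact ⟨⟨by have := hl.1; omega, fun p hp q hq =>
      hl.2 p (hl'.2 p hp) q (hl'.2 q hq)⟩, by omega⟩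
  obtain ⟨Θ, h0, hh⟩ := carrier (β := List G) (γ := List (G × G)) bdl bdl List.length P
    hPface (fun l _ => bd_bdl l)
    (fun _ => 0)
    (by
      intro l _
      rw [map_zero]
      have : lin (fun _ : List G => (0 : Ch (List (G × G)))) (bdl l) = 0 := by
        rw [lin_eq_sum]
        exact Finset.sum_const_zero
      rw [this])
    Car (fun _ => Finsupp.single [] 1)
    (by
      intro l hl h0
      have : l = [] := List.length_eq_zero_iff.mp h0
      subst this
      refine ⟨supp_single (Or.inl ⟨rfl, rfl⟩), ?_⟩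
      rw [lin_single]
      rfl)
    (by
      intro l hl h0 ζ hζ hcyc
      obtain ⟨x, t, rfl⟩ : ∃ x t, l = x :: t := by
        cases l with
        | nil => exact absurd rfl h0
        | cons x t => exact ⟨x, t, rfl⟩
      have hx : x ∈ x :: t := List.mem_cons_self
      have hlen : t.length + 1 ≤ N := by
        have := hl.1
        simp only [List.length_cons] at this
        omega
      -- reduce to the faces
      have hζ1 : ∀ w ∈ ζ.support, ∃ b' ∈ (bdl (x :: t)).support, Car b' w := by
        intro w hw
        rcases hζ w hw with hE | hE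
        · exact absurd hE (by simp)
        · exact hE
      rcases t with _ | ⟨y, t'⟩
      · -- a vertex
        have hζ2 : ∀ w ∈ ζ.support, w = [] := by
          intro w hw
          obtain ⟨b', hb', hc⟩ := hζ1 w hw
          have hb'0 : b' = [] := by
            have := (supp_bdl [x] b' hb').1
            simp only [List.length_cons, List.length_nil] at this
            exact List.length_eq_zero_iff.mp (by omega)
          rcases hc with ⟨-, hc⟩ | ⟨x', t'', hc, -⟩
          · exact hc
          · rw [hb'0] at hc
            cases hc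
        by_cases hz0 : ζ = 0
        · exact ⟨0, supp_zero, by rw [map_zero, hz0]⟩
        · have hζ3 : ζ = Finsupp.single [] 1 := by
            have hsub : ζ.support ⊆ {[]} := by
              intro w hw
              rw [Finset.mem_singleton]
              exact hζ2 w hw
            have h1 := Finsupp.eq_single_iff.mpr ⟨hsub, rfl⟩
            have h2 : ζ [] ≠ 0 := by
              intro h3
              apply hz0
              rw [h1, h3, Finsupp.single_zero]
            have h4 : ∀ s : ZMod 2, s ≠ 0 → s = 1 := by decide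
            rw [h4 _ h2] at h1
            exact h1
          obtain ⟨y, hy⟩ := fibre_nonempty hL z n x (hz x)
          refine ⟨Finsupp.single [(x, y)] 1, supp_single (Or.inr ⟨x, [], rfl, ?_⟩), ?_⟩
          · have h1 : ∀ m, L m (1 : G) := fun m => hL.mono _ _ _ (Nat.zero_le m) hL.one
            refine ⟨⟨rfl, ?_, ?_⟩, ?_⟩
            · intro p hp
              rw [List.mem_singleton.mp hp]
              exact theta_lam_mono hL (by omega) hy
            · intro p hp q hq
              rw [List.mem_singleton.mp hp, List.mem_singleton.mp hq]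
              exact ⟨by simpa using h1 _, by simpa using h1 _⟩
            · intro p hp
              rw [List.mem_singleton.mp hp]
              exact ⟨by simpa using h1 _, by simpa using h1 _⟩
          · rw [lin_single, hζ3]
            show Finsupp.single [] 1 + cone (x, y) 0 = _
            rw [map_zero, add_zero]
      · -- dimension at least one
        set j := (y :: t').length with hj
        have hj1 : t'.length + 1 = j := by simp [hj]
        have hζ' : Supp (InLx L z (n + (cs j).2) (r + (cs j).1) t'.length x) ζ := by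
          intro w hw
          obtain ⟨b', hb', hc⟩ := hζ1 w hw
          have hb'len : b'.length = j := by
            have := (supp_bdl (x :: y :: t') b' hb').1
            simp only [List.length_cons] at this
            omega
          rcases hc with ⟨hc, -⟩ | ⟨x', t'', hc, hcar⟩
          · rw [hc] at hb'len
            simp only [List.length_nil] at hb'len
            omega
          · have hx' : x' ∈ x :: y :: t' :=
              (supp_bdl (x :: y :: t') b' hb').2 x' (by rw [hc]; simp)
            have h1 := hl.2 x hx x' hx'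
            have h2 := hl.2 x' hx' x hx
            have h3 : t''.length = t'.length := by
              rw [hc] at hb'len
              simp only [List.length_cons] at hb'len
              omega
            rw [hb'len, h3] at hcar
            obtain ⟨⟨hc1, hc2, hc3⟩, hc4⟩ := hcar
            refine ⟨⟨hc1, hc2, fun p hp q hq => theta_nr_mono hL (by omega) (hc3 p hp q hq)⟩, ?_⟩
            intro p hp
            have h5 := hL.mul _ _ _ _ h1 (hc4 p hp).1
            have h6 := hL.mul _ _ _ _ (hc4 p hp).2 h2
            have e5 : x⁻¹ * x' * (x'⁻¹ * p.1) = x⁻¹ * p.1 := by group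
            have e6 : p.1⁻¹ * x' * (x'⁻¹ * x) = p.1⁻¹ * x := by group
            rw [e5] at h5
            rw [e6] at h6
            exact ⟨h5, hL.mono _ _ _ (by omega) h6⟩
        obtain ⟨d, hd, hbd⟩ := hF N (r + (cs j).1) z (n + (cs j).2) x t'.length (by omega) ζ hζ' hcyc
        refine ⟨d, supp_mono hd ?_, hbd⟩
        intro w hw
        refine Or.inr ⟨x, y :: t', rfl, ?_⟩
        have hcl : (x :: y :: t').length = j + 1 := by simp [hj]
        rw [hcl, cs_succ, ← hj, ← hj1]
        rw [← hj1] at hw
        have e : n + ((cs (t'.length + 1)).2 + SF N (r + (cs (t'.length + 1)).1)) =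
          n + (cs (t'.length + 1)).2 + SF N (r + (cs (t'.length + 1)).1) := by omega
        rw [e]
        exact hw)
  have hP0 : P [] := ⟨Nat.zero_le N, fun p hp => absurd hp List.not_mem_nil⟩
  refine ⟨Θ, h0 [] hP0 rfl, ?_⟩
  intro l hlen hsm
  obtain ⟨h1, h2⟩ := hh l ⟨hlen, hsm⟩
  refine ⟨supp_mono h1 ?_, by rw [zero_add] at h2; exact h2⟩
  have hmem : l.length ∈ Finset.range (N + 1) := Finset.mem_range.mpr (by omega)
  have hR : (cs l.length).1 ≤ ∑ j ∈ Finset.range (N + 1), (cs j).1 :=
    Finset.single_le_sum (f := fun j => (cs j).1) (fun _ _ => Nat.zero_le _) hmem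
  have hS : (cs l.length).2 ≤ ∑ j ∈ Finset.range (N + 1), (cs j).2 :=
    Finset.single_le_sum (f := fun j => (cs j).2) (fun _ _ => Nat.zero_le _) hmem
  rintro w (⟨hl, hw⟩ | ⟨x, t, hl, hw⟩)
  · subst hl
    subst hw
    exact ⟨rfl, fun p hp => absurd hp List.not_mem_nil, fun p hp => absurd hp List.not_mem_nil,
      fun x t hxt => absurd hxt (by simp)⟩
  · refine ⟨?_, fun p hp => theta_lam_mono hL (by omega) (hw.1.2.1 p hp),
      fun p hp q hq => theta_nr_mono hL hR (hw.1.2.2 p hp q hq), ?_⟩
    · rw [hw.1.1, hl, List.length_cons]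
    · intro x' t' hxt p hp
      rw [hl] at hxt
      obtain ⟨rfl, rfl⟩ := List.cons.inj hxt
      exact ⟨hL.mono _ _ _ hR (hw.2 p hp).1, hL.mono _ _ _ hR (hw.2 p hp).2⟩

end Pool.Agent.VNR
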