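import Mathlib
import Pool.Agent.VNR.Defs
import Pool.Agent.VNR.Alg
import Pool.Agent.VNR.Carrier
import Pool.Agent.VNR.Near
import Pool.Agent.VNR.Theta
/-!
# The space of opposite pairs is coarsely acyclic
-/
namespace Pool.Agent.VNR

variable {G : Type} [Group G] {L : ℕ → G → Prop}

private theorem fib_lin_id {X : Type} (c : Ch X) : lin (fun x => Finsupp.single x 1) c = c := by
  rw [lin_eq_sum]
  have h1 : ∀ x ∈ c.support, c x = 1 := by
    intro x hx
    have h0 : c x ≠ 0 := Finsupp.mem_support_iff.mp hx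
    have : ∀ t : ZMod 2, t ≠ 0 → t = 1 := by decide
    exact this _ h0
  conv_rhs => rw [← Finsupp.sum_single c]
  rw [Finsupp.sum]
  exact Finset.sum_congr rfl (fun x hx => by rw [h1 x hx])

private theorem fib_mp_map {X Y Z : Type} (f : X → Y) (g : List Y → Ch Z) (c : Ch (List X)) :
    lin g (mp f c) = lin (fun l => g (l.map f)) c := by
  rw [mp, lin_lin]
  exact lin_congr _ _ _ (fun l _ => lin_single g (l.map f))

private theorem fib_bdl_map {X Y : Type} (f : X → Y) (l : List X) :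
    bdl (l.map f) = mp f (bdl l) := by
  have h1 : mp f (Finsupp.single l 1) = Finsupp.single (l.map f) 1 := lin_single _ _
  have h2 : bd (Finsupp.single l 1) = bdl l := lin_single _ _
  have h3 : bd (Finsupp.single (l.map f) 1) = bdl (l.map f) := lin_single _ _
  have h := bd_mp f (Finsupp.single l 1)
  rw [h1, h2, h3] at h
  exact h

private theorem fib_lam_mono (hL : LenF L) {z : G} {m n : ℕ} (h : m ≤ n) {p : G × G}
    (hp : Lam L z m p) : Lam L z n p := ⟨hL.mono _ _ _ h hp.1, hL.mono _ _ _ h hp.2⟩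

private theorem fib_nr_mono (hL : LenF L) {m n : ℕ} (h : m ≤ n) {p q : G × G}
    (hp : Nr L m p q) : Nr L n p q := ⟨hL.mono _ _ _ h hp.1, hL.mono _ _ _ h hp.2⟩

/-- The homotopy. -/
private theorem fib_homotopy (hL : LenF L) (hA : Acyc L) (N r : ℕ) (R1 S1 : ℕ) :
    ∃ RR SS : ℕ, ∀ (z : G) (n : ℕ) (Θ : List G → Ch (List (G × G))),
      Θ [] = Finsupp.single [] 1 →
      (∀ l : List G, l.length ≤ N + 2 → (∀ p ∈ l, ∀ q ∈ l, L r (p⁻¹ * q)) →
        Supp (Ov L z (n + S1) R1 l) (Θ l) ∧ bd (Θ l) = lin Θ (bdl l)) →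
      ∃ h : List (G × G) → Ch (List (G × G)),
        ∀ l : List (G × G), l.length ≤ N + 1 → (∀ p ∈ l, Lam L z n p) →
          (∀ p ∈ l, ∀ q ∈ l, Nr L r p q) →
          Supp (InL L z (n + SS) RR l.length) (h l) ∧
          bd (h l) = (Finsupp.single l 1 + Θ (l.map Prod.fst)) + lin h (bdl l) := by
  classical
  choose RF SF hF using near_fill hL hA
  -- the constants
  let cs : ℕ → ℕ × ℕ := fun j => Nat.rec ((0, 0) : ℕ × ℕ)
    (fun _ rs => (RF N (r + R1 + rs.1), S1 + rs.2 + SF N (r + R1 + rs.1))) j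
  have cs_succ : ∀ j, cs (j + 1) =
      (RF N (r + R1 + (cs j).1), S1 + (cs j).2 + SF N (r + R1 + (cs j).1)) := fun j => rfl
  refine ⟨∑ j ∈ Finset.range (N + 2), (cs j).1, ∑ j ∈ Finset.range (N + 2), (cs j).2, ?_⟩
  intro z n Θ hΘ0 hΘ
  -- the carrier
  let P : List (G × G) → Prop := fun l => l.length ≤ N + 1 ∧ (∀ p ∈ l, Lam L z n p) ∧
    ∀ p ∈ l, ∀ q ∈ l, Nr L r p q
  let Car : List (G × G) → List (G × G) → Prop := fun l l'' =>
    ∃ x t, l = x :: t ∧ InLx L z (n + (cs l.length).2) (cs l.length).1 l.length x.1 l''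
  have hPsmall : ∀ l, P l → l.length ≤ N + 2 ∧
      (l.map Prod.fst).length ≤ N + 2 ∧ ∀ p ∈ l.map Prod.fst, ∀ q ∈ l.map Prod.fst,
        L r (p⁻¹ * q) := by
    intro l hl
    refine ⟨by have := hl.1; omega, by rw [List.length_map]; have := hl.1; omega, ?_⟩
    intro p hp q hq
    obtain ⟨p', hp', rfl⟩ := List.mem_map.mp hp
    obtain ⟨q', hq', rfl⟩ := List.mem_map.mp hq
    exact (hl.2.2 p' hp' q' hq').1
  have hPface : ∀ l, P l → Supp (fun l' => P l' ∧ l'.length < l.length) (bdl l) := by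
    intro l hl
    refine supp_mono (supp_bdl l) ?_
    intro l' hl'
    refine ⟨⟨by have := hl.1; omega, fun p hp => hl.2.1 p (hl'.2 p hp), fun p hp q hq =>
      hl.2.2 p (hl'.2 p hp) q (hl'.2 q hq)⟩, by omega⟩
  obtain ⟨h, -, hh⟩ := carrier (β := List (G × G)) (γ := List (G × G)) bdl bdl List.length P
    hPface (fun l _ => bd_bdl l)
    (fun l => Finsupp.single l 1 + Θ (l.map Prod.fst))
    (by
      intro l hl
      have h1 := (hΘ (l.map Prod.fst) (hPsmall l hl).2.1 (hPsmall l hl).2.2).2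
      rw [map_add, lin_single, lin_add_fun, fib_lin_id]
      congr 1
      have h2 : lin bdl (Θ (l.map Prod.fst)) = bd (Θ (l.map Prod.fst)) := rfl
      rw [h2, h1, fib_bdl_map, fib_mp_map])
    Car (fun _ => 0)
    (by
      intro l hl h0
      have : l = [] := List.length_eq_zero_iff.mp h0
      subst this
      refine ⟨supp_zero, ?_⟩
      rw [map_zero, List.map_nil, hΘ0, ch_add_self])
    (by
      intro l hl h0 ζ hζ hcyc
      obtain ⟨x, t, rfl⟩ : ∃ x t, l = x :: t := by
        cases l with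
        | nil => exact absurd rfl h0
        | cons x t => exact ⟨x, t, rfl⟩
      have hlen : t.length ≤ N := by have := hl.1; simp only [List.length_cons] at this; omega
      have hx : x ∈ x :: t := List.mem_cons_self
      set j := t.length with hj
      have hζ' : Supp (InLx L z (n + (S1 + (cs j).2)) (r + R1 + (cs j).1) j x.1) ζ := by
        intro w hw
        rcases hζ w hw with hE | ⟨b', hb', y, t', hb'eq, hcar⟩
        · rcases Finset.mem_union.mp (Finsupp.support_add hE) with h1 | h1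
          · have hwl : w = x :: t := by
              have := Finsupp.support_single_subset h1
              simpa using this
            subst hwl
            refine ⟨⟨by simp [hj], fun p hp => fib_lam_mono hL (by omega) (hl.2.1 p hp),
              fun p hp q hq => fib_nr_mono hL (by omega) (hl.2.2 p hp q hq)⟩, ?_⟩
            intro p hp
            exact ⟨hL.mono _ _ _ (by omega) (hl.2.2 x hx p hp).1,
              hL.mono _ _ _ (by omega) (hl.2.2 p hp x hx).1⟩
          · obtain ⟨ho1, ho2, ho3, ho4⟩ :=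
              (hΘ ((x :: t).map Prod.fst) (hPsmall _ hl).2.1 (hPsmall _ hl).2.2).1 w h1
            refine ⟨⟨by rw [ho1]; simp [hj], fun p hp => fib_lam_mono hL (by omega) (ho2 p hp),
              fun p hp q hq => fib_nr_mono hL (by omega) (ho3 p hp q hq)⟩, ?_⟩
            intro p hp
            have := ho4 x.1 (t.map Prod.fst) (by simp) p hp
            exact ⟨hL.mono _ _ _ (by omega) this.1, hL.mono _ _ _ (by omega) this.2⟩
        · have hb'len : b'.length = j := by
            have := (supp_bdl (x :: t) b' hb').1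
            simp only [List.length_cons] at this
            omega
          have hyx : L r (x.1⁻¹ * y.1) ∧ L r (y.1⁻¹ * x.1) := by
            have hy : y ∈ x :: t := (supp_bdl (x :: t) b' hb').2 y (by rw [hb'eq]; simp)
            exact ⟨(hl.2.2 x hx y hy).1, (hl.2.2 y hy x hx).1⟩
          rw [hb'len] at hcar
          obtain ⟨⟨hc1, hc2, hc3⟩, hc4⟩ := hcar
          refine ⟨⟨hc1, fun p hp => fib_lam_mono hL (by omega) (hc2 p hp),
              fun p hp q hq => fib_nr_mono hL (by omega) (hc3 p hp q hq)⟩, ?_⟩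
          intro p hp
          have h5 := hL.mul _ _ _ _ hyx.1 (hc4 p hp).1
          have h6 := hL.mul _ _ _ _ (hc4 p hp).2 hyx.2
          have e5 : x.1⁻¹ * y.1 * (y.1⁻¹ * p.1) = x.1⁻¹ * p.1 := by group
          have e6 : p.1⁻¹ * y.1 * (y.1⁻¹ * x.1) = p.1⁻¹ * x.1 := by group
          rw [e5] at h5
          rw [e6] at h6
          exact ⟨hL.mono _ _ _ (by omega) h5, hL.mono _ _ _ (by omega) h6⟩
      obtain ⟨d, hd, hbd⟩ := hF N (r + R1 + (cs j).1) z (n + (S1 + (cs j).2)) x.1 j hlen ζ hζ' hcyc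
      refine ⟨d, supp_mono hd ?_, hbd⟩
      intro w hw
      refine ⟨x, t, rfl, ?_⟩
      have hcl : (x :: t).length = j + 1 := by simp [hj]
      rw [hcl, cs_succ]
      have : n + (S1 + (cs j).2 + SF N (r + R1 + (cs j).1)) =
          n + (S1 + (cs j).2) + SF N (r + R1 + (cs j).1) := by omega
      rw [this]
      exact hw)
  refine ⟨h, ?_⟩
  intro l hlen hlam hnr
  obtain ⟨h1, h2⟩ := hh l ⟨hlen, hlam, hnr⟩
  refine ⟨supp_mono h1 ?_, h2⟩
  rintro w ⟨x, t, hl, hw⟩
  have hmem : l.length ∈ Finset.range (N + 2) := Finset.mem_range.mpr (by omega)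
  have hR : (cs l.length).1 ≤ ∑ j ∈ Finset.range (N + 2), (cs j).1 :=
    Finset.single_le_sum (f := fun j => (cs j).1) (fun _ _ => Nat.zero_le _) hmem
  have hS : (cs l.length).2 ≤ ∑ j ∈ Finset.range (N + 2), (cs j).2 :=
    Finset.single_le_sum (f := fun j => (cs j).2) (fun _ _ => Nat.zero_le _) hmem
  exact ⟨hw.1.1, fun p hp => fib_lam_mono hL (by omega) (hw.1.2.1 p hp),
    fun p hp q hq => fib_nr_mono hL hR (hw.1.2.2 p hp q hq)⟩

theorem acycL (hL : LenF L) (hA : Acyc L) : AcycL L := by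
  intro N r
  obtain ⟨Rb, hb⟩ := base_fill hL hA N r
  obtain ⟨R1, S1, hT⟩ := exists_theta hL hA (N + 2) (r + Rb)
  obtain ⟨RR, SS, hH⟩ := fib_homotopy hL hA N r R1 S1
  refine ⟨R1 + RR, S1 + SS, ?_⟩
  intro z n hz k hk c hc hcyc
  obtain ⟨Θ, hΘ0, hΘ⟩ := hT z n hz
  obtain ⟨h, hh⟩ := hH z n Θ hΘ0 (fun l hl hl' => hΘ l hl (fun p hp q hq =>
    hL.mono _ _ _ (by omega) (hl' p hp q hq)))
  -- the filling in the base
  have hcb : bd (mp Prod.fst c) = 0 := by rw [bd_mp, hcyc, map_zero]
  obtain ⟨d0, hd0, hbd0⟩ := hb k hk (mp Prod.fst c) (by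
    refine supp_mp hc ?_
    intro l hl
    refine ⟨by rw [List.length_map]; exact hl.1, ?_⟩
    intro p hp q hq
    obtain ⟨p', hp', rfl⟩ := List.mem_map.mp hp
    obtain ⟨q', hq', rfl⟩ := List.mem_map.mp hq
    exact (hl.2.2 p' hp' q' hq').1) hcb
  have hcP : ∀ l ∈ c.support, Supp (InL L z (n + SS) RR l.length) (h l) ∧
      bd (h l) = (Finsupp.single l 1 + Θ (l.map Prod.fst)) + lin h (bdl l) := by
    intro l hl
    have := hc l hl
    exact hh l (by have := this.1; omega) this.2.1 this.2.2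
  have hdP : ∀ l ∈ d0.support, Supp (Ov L z (n + S1) R1 l) (Θ l) ∧ bd (Θ l) = lin Θ (bdl l) := by
    intro l hl
    have := hd0 l hl
    exact hΘ l (by have := this.1; omega) (fun p hp q hq =>
      hL.mono _ _ _ (by omega) (this.2 p hp q hq))
  refine ⟨lin h c + lin Θ d0, supp_add ?_ ?_, ?_⟩
  · intro w hw
    obtain ⟨l, hl, hw'⟩ := mem_lin hw
    have h1 := (hcP l hl).1 w hw'
    have h2 := (hc l hl).1
    rw [h2] at h1
    exact ⟨h1.1, fun p hp => fib_lam_mono hL (by omega) (h1.2.1 p hp),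
      fun p hp q hq => fib_nr_mono hL (by omega) (h1.2.2 p hp q hq)⟩
  · intro w hw
    obtain ⟨l, hl, hw'⟩ := mem_lin hw
    have h1 := (hdP l hl).1 w hw'
    have h2 := (hd0 l hl).1
    exact ⟨by rw [h1.1, h2], fun p hp => fib_lam_mono hL (by omega) (h1.2.1 p hp),
      fun p hp q hq => fib_nr_mono hL (by omega) (h1.2.2.1 p hp q hq)⟩
  · have e1 : bd (lin h c) = c + lin Θ (mp Prod.fst c) := by
      have a1 : bd (lin h c) = lin (fun l => bd (h l)) c := by
        show lin bdl (lin h c) = _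
        rw [lin_lin]
        rfl
      have a2 : lin (fun l => bd (h l)) c =
          lin (fun l => (Finsupp.single l 1 + Θ (l.map Prod.fst)) + lin h (bdl l)) c :=
        lin_congr _ _ _ (fun l hl => (hcP l hl).2)
      rw [a1, a2, lin_add_fun, lin_add_fun, fib_lin_id]
      have a3 : lin (fun l => lin h (bdl l)) c = lin h (bd c) := by
        rw [bd, lin_lin]
      rw [a3, hcyc, map_zero, add_zero, fib_mp_map]
    have e2 : bd (lin Θ d0) = lin Θ (mp Prod.fst c) := by
      have a1 : bd (lin Θ d0) = lin (fun l => bd (Θ l)) d0 := by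
        show lin bdl (lin Θ d0) = _
        rw [lin_lin]
        rfl
      have a2 : lin (fun l => bd (Θ l)) d0 = lin (fun l => lin Θ (bdl l)) d0 :=
        lin_congr _ _ _ (fun l hl => (hdP l hl).2)
      have a3 : lin (fun l => lin Θ (bdl l)) d0 = lin Θ (bd d0) := by
        rw [bd, lin_lin]
      rw [a1, a2, a3, hbd0]
    rw [map_add, e1, e2, add_assoc, ch_add_self, add_zero]

end Pool.Agent.VNR
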