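import Mathlib
import Pool.Agent.VNR.Defs
/-!
# The padded alphabet
-/
namespace Pool.Agent.VNR
open Pool.Agent.SLX (val)

/-- Padding letter added at the bottom. -/
def evB {A G : Type} [Group G] (π : A → G) : WithBot A → G := fun b => WithBot.recBotCoe 1 π b

/-- `g` is the value of a word of length exactly `n`. -/
def LB {B G : Type} [Group G] (ev : B → G) (n : ℕ) (g : G) : Prop :=
  ∃ w : List B, w.length = n ∧ val ev w = g

end Pool.Agent.VNR
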