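import Mathlib
import Pool.Agent.VNR.Defs
import Pool.Agent.VNP.PLab
import Pool.Agent.VNP.Dist
/-!
# Adapters: labels and distorted elements
-/
namespace Pool.Agent.VNR

theorem labG_of_plab {G : Type} [Group G] {L : ℕ → G → Prop} (hL : LenF L) {D : ℕ}
    (h : Pool.Agent.VNP.PLab G D) : LabG L D := by
  intro r
  obtain ⟨K, lam, hK, h1, h2, h3, h4⟩ := h {g | L r g} (hL.fin r)
  have hb : ∃ C : ℕ, ∀ k ∈ K, L C k := by
    choose n hn using hL.ex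
    obtain ⟨C, hC⟩ := (hK.image n).bddAbove
    exact ⟨C, fun k hk => hL.mono _ _ _ (hC ⟨k, hk, rfl⟩) (hn k)⟩
  obtain ⟨C, hC⟩ := hb
  refine ⟨C, lam, ?_⟩
  rintro ⟨x, y⟩ hp1 hp2
  have hxy : x⁻¹ * y ∉ K := fun hk => hp1 (hC _ hk)
  have h5 := h2 x y hxy
  refine ⟨?_, h5.2, h3 x y hxy, ?_⟩
  · intro h0
    rw [h0] at h5
    simp at h5
  · rintro ⟨x', y'⟩ hq1 hq2 hnr
    have hxy' : x'⁻¹ * y' ∉ K := fun hk => hq1 (hC _ hk)
    exact h4 x y x' y' hnr.1 hnr.2 hxy hxy'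

theorem dist_of_hasDist {G : Type} [Group G] (h : Pool.Agent.VNP.HasDist G) :
    ∃ z : G, Dist z := by
  obtain ⟨z, x, y, F, hF, hz, hc, hsq⟩ := h
  refine ⟨z, ?_, ⟨Set.range (fun g : G => g⁻¹ * z * g), hc, fun g => ⟨g, rfl⟩⟩, x, y, F, hF, ?_⟩
  · rw [isOfFinOrder_iff_pow_eq_one]
    rintro ⟨n, hn, hn'⟩
    exact hz n hn hn'
  · intro n
    obtain ⟨f, hf, hf'⟩ := hsq n
    exact ⟨f, hf, by rw [hf', inv_pow, inv_pow]⟩

end Pool.Agent.VNR
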