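import Mathlib
import Pool.Agent.VNR.Defs
/-!
# Least words, first part
-/
namespace Pool.Agent.VNR
open Pool.Agent.SLX (val)

variable {B G : Type} [LinearOrder B] [Group G] (ev : B → G)

theorem val_nil : val ev [] = 1 := by simp [val]

theorem val_app (u v : List B) : val ev (u ++ v) = val ev u * val ev v := by simp [val]

theorem lt_app_right {u v : List B} (h : u.length = v.length) (hlt : u < v) (q : List B) :
    u ++ q < v ++ q := by
  induction u generalizing v with
  | nil =>
    cases v with
    | nil => exact absurd hlt (lt_irrefl _)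
    | cons b v => simp at h
  | cons a u ih =>
    cases v with
    | nil => simp at h
    | cons b v =>
      rw [List.cons_append, List.cons_append]
      rw [List.cons_lt_cons_iff] at hlt ⊢
      rcases hlt with h1 | ⟨h1, h2⟩
      · exact Or.inl h1
      · exact Or.inr ⟨h1, ih (by simpa using h) h2⟩

theorem lt_app_left {u v : List B} (hlt : u < v) (p : List B) : p ++ u < p ++ v := by
  induction p with
  | nil => simpa using hlt
  | cons a p ih =>
    rw [List.cons_append, List.cons_append, List.cons_lt_cons_iff]
    exact Or.inr ⟨rfl, ih⟩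

/-- Lexicographic order and concatenation (equal lengths). -/
theorem lt_ctx {u v : List B} (h : u.length = v.length) (hlt : u < v) (p q : List B) :
    p ++ u ++ q < p ++ v ++ q :=
  lt_app_right (by simp [h]) (lt_app_left hlt p) q

theorem le_app {u v q r : List B} (h : u.length = v.length) (hle : u ≤ v) (hqr : q ≤ r) :
    u ++ q ≤ v ++ r := by
  rcases hle.lt_or_eq with hlt | heq
  · rcases hqr.lt_or_eq with hlt' | heq'
    · exact ((lt_app_right h hlt q).trans (lt_app_left hlt' v)).le
    · subst heq'; exact (lt_app_right h hlt q).le
  · subst heq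
    rcases hqr.lt_or_eq with hlt' | heq'
    · exact (lt_app_left hlt' u).le
    · subst heq'; exact le_rfl

theorem irr_nil : Irr ev [] := by
  rintro u ⟨h1, -, h3⟩
  have : u = [] := List.length_eq_zero_iff.1 (by simpa using h1)
  subst this
  exact lt_irrefl _ h3

theorem irr_factor {p w q : List B} (h : Irr ev (p ++ w ++ q)) : Irr ev w := by
  rintro u ⟨h1, h2, h3⟩
  refine h (p ++ u ++ q) ⟨by simp [h1], by simp [val_app, h2], lt_ctx h1 h3 p q⟩

theorem irr_left {u v : List B} (h : Irr ev (u ++ v)) : Irr ev u :=
  irr_factor ev (p := []) (w := u) (q := v) (by simpa using h)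

theorem irr_right {u v : List B} (h : Irr ev (u ++ v)) : Irr ev v :=
  irr_factor ev (p := u) (w := v) (q := []) (by simpa using h)

/-- The order on words of a fixed length is well founded: induction. -/
theorem len_induction [Finite B] (n : ℕ) {P : List B → Prop}
    (h : ∀ w : List B, w.length = n → (∀ u : List B, u.length = n → u < w → P u) → P w) :
    ∀ w : List B, w.length = n → P w := by
  have hfin : {l : List B | l.length = n}.Finite := List.finite_length_eq B n
  haveI : Finite {l : List B // l.length = n} := hfin
  have key : ∀ w : {l : List B // l.length = n}, P w.1 := by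
    intro w
    induction w using (Finite.to_wellFoundedLT (α := {l : List B // l.length = n})).induction with
    | ind w ih => exact h w.1 w.2 fun u hu hlt => ih ⟨u, hu⟩ hlt
  intro w hw
  exact key ⟨w, hw⟩

/-- Every word has a normal form: the least word of the same length and value. -/
theorem exists_irr [Finite B] (w : List B) : ∃ v : List B, Irr ev v ∧ v.length = w.length ∧
    val ev v = val ev w ∧ v ≤ w ∧ (¬ Irr ev w → v < w) := by
  refine len_induction w.length (P := fun w => ∃ v : List B, Irr ev v ∧ v.length = w.length ∧
    val ev v = val ev w ∧ v ≤ w ∧ (¬ Irr ev w → v < w)) ?_ w rfl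
  intro w' hw' ih
  by_cases hI : Irr ev w'
  · exact ⟨w', hI, rfl, rfl, le_rfl, fun h => absurd hI h⟩
  · have hI2 := hI
    unfold Irr at hI2
    push Not at hI2
    obtain ⟨u, hu1, hu2, hu3⟩ := hI2
    obtain ⟨v, h1, h2, h3, h4, -⟩ := ih u (hu1.trans hw') hu3
    exact ⟨v, h1, h2.trans hu1, h3.trans hu2, (h4.trans_lt hu3).le, fun _ => h4.trans_lt hu3⟩

theorem irr_le {u v : List B} (hu : Irr ev u) (h : u.length = v.length)
    (h' : val ev u = val ev v) : u ≤ v := by
  by_contra hlt
  exact hu v ⟨h.symm, h'.symm, not_le.1 hlt⟩

theorem irr_unique {u v : List B} (hu : Irr ev u) (hv : Irr ev v) (h : u.length = v.length)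
    (h' : val ev u = val ev v) : u = v :=
  le_antisymm (irr_le ev hu h h') (irr_le ev hv h.symm h'.symm)

end Pool.Agent.VNR
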