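import Mathlib
import Pool.Agent.VNR.Defs
import Pool.Agent.VNR.IrrA
/-!
# Least words, second part
-/
namespace Pool.Agent.VNR
open Pool.Agent.SLX (val)

variable {B G : Type} [LinearOrder B] [Group G] (ev : B → G)

/-- Shortest prefix of `v` with which `x` gives a word that is not least: existence. -/
theorem exists_short {x v : List B} (hx : Irr ev x) (hxv : ¬ Irr ev (x ++ v)) :
    ∃ y v' : List B, v = y ++ v' ∧ ¬ Irr ev (x ++ y) ∧ Irr ev (x ++ y.dropLast) := by
  classical
  have hex : ∃ n, n ≤ v.length ∧ ¬ Irr ev (x ++ v.take n) :=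
    ⟨v.length, le_refl _, by rw [List.take_length]; exact hxv⟩
  obtain ⟨hn, hni⟩ := Nat.find_spec hex
  have hmin : ∀ m, m < Nat.find hex → ¬ (m ≤ v.length ∧ ¬ Irr ev (x ++ v.take m)) :=
    fun m hm => Nat.find_min hex hm
  generalize Nat.find hex = n at hn hni hmin
  refine ⟨v.take n, v.drop n, (List.take_append_drop n v).symm, hni, ?_⟩
  rcases n with _ | n
  · exact absurd (by simpa using hx) hni
  · have h1 : (v.take (n + 1)).dropLast = v.take n := by
      rw [List.dropLast_eq_take, List.take_take, List.length_take]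
      congr 1
      omega
    rw [h1]
    by_contra hc
    exact hmin n (Nat.lt_succ_self n) ⟨by omega, hc⟩

private theorem short_aux {x y y' v v' : List B} (h : y ++ v = y' ++ v') (h1 : ¬ Irr ev (x ++ y))
    (h2' : Irr ev (x ++ y'.dropLast)) : y'.length ≤ y.length := by
  by_contra hlt
  push Not at hlt
  have hle : y.length ≤ y'.dropLast.length := by
    rw [List.length_dropLast]; omega
  have e : y'.dropLast = y ++ y'.dropLast.drop y.length := by
    have e1 : y'.dropLast <+: y' ++ v' := (List.dropLast_prefix y').trans (List.prefix_append _ _)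
    have e2 : y <+: y' ++ v' := by rw [← h]; exact List.prefix_append _ _
    have e3 : y <+: y'.dropLast := List.prefix_of_prefix_length_le e2 e1 hle
    obtain ⟨t, ht⟩ := e3
    rw [← ht]
    simp
  rw [e, ← List.append_assoc] at h2'
  exact h1 (irr_left ev h2')

/-- Shortest prefix: uniqueness. -/
theorem short_unique {x y y' v v' : List B} (h : y ++ v = y' ++ v') (h1 : ¬ Irr ev (x ++ y))
    (h2 : Irr ev (x ++ y.dropLast)) (h1' : ¬ Irr ev (x ++ y'))
    (h2' : Irr ev (x ++ y'.dropLast)) : y = y' ∧ v = v' := by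
  have a1 := short_aux ev h h1 h2'
  have a2 := short_aux ev h.symm h1' h2
  exact List.append_inj h (le_antisymm a2 a1)

/-- Length of the shortest prefix. -/
theorem short_length {K : ℕ} (hK : LocT ev K) {x y : List B} (hy : Irr ev y)
    (h1 : ¬ Irr ev (x ++ y)) (h2 : Irr ev (x ++ y.dropLast)) : y.length ≤ K := by
  obtain ⟨p, f, q, e, hf, hfi⟩ := hK _ h1
  by_contra hlt
  push Not at hlt
  -- `q` is empty
  have hy0 : y ≠ [] := by
    intro h0; rw [h0] at hlt; simp at hlt
  have hq : q = [] := by
    by_contra hq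
    have e1 : x ++ y.dropLast = p ++ f ++ q.dropLast := by
      rw [← List.dropLast_append_of_ne_nil hy0, e, List.dropLast_append_of_ne_nil hq]
    rw [e1] at h2
    exact hfi (irr_factor ev h2)
  rw [hq, List.append_nil] at e
  -- `f` is a suffix of `y`
  have s1 : f <:+ x ++ y := ⟨p, e.symm⟩
  have s2 : y <:+ x ++ y := ⟨x, rfl⟩
  have s3 : f <:+ y := List.suffix_of_suffix_length_le s1 s2 (by omega)
  obtain ⟨t, ht⟩ := s3
  rw [← ht] at hy
  exact hfi (irr_right ev hy)

theorem past_refl (g : G) (n : ℕ) : Past ev g n g n := ⟨[], by simp, by simp [val]⟩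

theorem past_trans {g g' g'' : G} {n n' n'' : ℕ} (h : Past ev g n g' n')
    (h' : Past ev g' n' g'' n'') : Past ev g n g'' n'' := by
  obtain ⟨w, hw, hg⟩ := h
  obtain ⟨w', hw', hg'⟩ := h'
  refine ⟨w ++ w', by rw [List.length_append]; omega, ?_⟩
  rw [val_app, ← mul_assoc, hg, hg']

theorem past_le {g g' : G} {n n' : ℕ} (h : Past ev g n g' n') : n ≤ n' := by
  obtain ⟨w, hw, _⟩ := h
  omega

theorem isGen_tail {a : ℕ} {y : List B} {c : List (List B)} (h : IsGen ev a (y :: c)) :
    IsGen ev a c := by
  rcases c with _ | ⟨x, c⟩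
  · trivial
  · exact h.2.2.2

/-- The first point of a generator. -/
theorem exists_point {a : ℕ} {c : List (List B)} (h : IsGen ev a c) (hc : c ≠ []) :
    ∃ (x t : List B), tw c = x ++ t ∧ x.length = a := by
  induction c with
  | nil => exact absurd rfl hc
  | cons y c ih =>
    rcases c with _ | ⟨x, c⟩
    · exact ⟨y, [], by simp [tw], h.2⟩
    · obtain ⟨x', t, e, hx'⟩ := ih (isGen_tail ev h) (by simp)
      exact ⟨x', t ++ y, by rw [tw, e, List.append_assoc], hx'⟩

theorem tw_length_ge {a : ℕ} {c : List (List B)} (h : IsGen ev a c) (hc : c ≠ []) :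
    a ≤ (tw c).length := by
  obtain ⟨x, t, e, hx⟩ := exists_point ev h hc
  rw [e, List.length_append]
  omega

theorem tw_length_le {K a : ℕ} (hK : LocT ev K) {c : List (List B)} (h : IsGen ev a c)
    (hc : c ≠ []) : (tw c).length ≤ a + (c.length - 1) * K := by
  induction c with
  | nil => exact absurd rfl hc
  | cons y c ih =>
    rcases c with _ | ⟨x, c⟩
    · have : y.length = a := h.2
      simp [tw, this]
    · have i1 := ih (isGen_tail ev h) (by simp)
      have i2 : y.length ≤ K := short_length ev hK h.1 h.2.1 h.2.2.1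
      rw [tw, List.length_append]
      simp only [List.length_cons, Nat.add_sub_cancel] at i1 ⊢
      calc (tw (x :: c)).length + y.length ≤ a + c.length * K + K := by omega
        _ = a + (c.length + 1) * K := by ring

end Pool.Agent.VNR
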