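import Mathlib
import Pool.Agent.VNR.Defs
import Pool.Agent.VNR.Alg
import Pool.Agent.VNR.Carrier
import Pool.Agent.VNR.IrrB
import Pool.Agent.VNR.LBDefs
/-!
# From tuples to the resolution
-/
namespace Pool.Agent.VNR
open Pool.Agent.SLX (val)

/-- Small tuples of elements of length at most `a`. -/
def SmT {G : Type} [Group G] (L : ℕ → G → Prop) (a r N : ℕ) (l : List G) : Prop :=
  l.length ≤ N ∧ (∀ p ∈ l, L a p) ∧ ∀ p ∈ l, ∀ q ∈ l, L r (p⁻¹ * q)

private theorem past_of_LB {B G : Type} [LinearOrder B] [Group G] (ev : B → G) {r : ℕ} {p q : G}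
    (h : LB ev r (p⁻¹ * q)) (n : ℕ) : Past ev p n q (n + r) := by
  obtain ⟨w, hw, hv⟩ := h
  exact ⟨w, by rw [hw], by rw [hv, mul_inv_cancel_left]⟩

/-- The carrier of a tuple. -/
private def Cr {B G : Type} [LinearOrder B] [Group G] (ev : B → G) (a r : ℕ) (l : List G)
    (c : List (List B)) : Prop :=
  (l = [] ∧ c = []) ∨ ∃ x l', l = x :: l' ∧ InS ev a x (a + l'.length * r) l.length c

private theorem inS_past {B G : Type} [LinearOrder B] [Group G] (ev : B → G) {a : ℕ}
    {g g' : G} {n n' k : ℕ} {c : List (List B)} (h : InS ev a g n k c)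
    (hp : Past ev g n g' n') : InS ev a g' n' k c :=
  ⟨h.1, h.2.1, past_trans ev h.2.2 hp⟩

private theorem face_carrier {B G : Type} [LinearOrder B] [Group G] (ev : B → G) {a r N : ℕ}
    {x : G} {l' : List G} (hl : SmT (LB ev) a r N (x :: l')) {b' : List G}
    (hb : b' ∈ (bdl (x :: l')).support) {z : List (List B)} (hz : Cr ev a r b' z) :
    InS ev a x (a + l'.length * r) l'.length z := by
  obtain ⟨-, hl2, hl3⟩ := hl
  rcases mem_bdl_cons hb with rfl | ⟨l'', hl'', rfl⟩
  · rcases hz with ⟨rfl, rfl⟩ | ⟨x1, l1, rfl, hz⟩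
    · refine ⟨trivial, rfl, ?_⟩
      obtain ⟨w, hw, hv⟩ := hl2 x (by simp)
      refine ⟨w, ?_, ?_⟩
      · simp [tw, hw]
      · rw [hv]
        show val ev [] * x = x
        rw [val_nil, one_mul]
    · refine inS_past ev hz ?_
      have h1 : LB ev r (x1⁻¹ * x) := hl3 x1 (by simp) x (by simp)
      have h2 := past_of_LB ev h1 (a + l1.length * r)
      have h3 : a + l1.length * r + r = a + (x1 :: l1).length * r := by
        rw [List.length_cons]; ring
      rwa [h3] at h2
  · have hlen : l''.length + 1 = l'.length := (supp_bdl l' l'' hl'').1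
    rcases hz with ⟨h, -⟩ | ⟨x1, l1, h, hz⟩
    · cases h
    · cases h
      have hk : (x :: l'').length = l'.length := by rw [List.length_cons, hlen]
      rw [hk] at hz
      refine inS_past ev hz ?_
      have h1 : LB ev r (x⁻¹ * x) := hl3 x (by simp) x (by simp)
      have h2 := past_of_LB ev h1 (a + l''.length * r)
      have h3 : a + l''.length * r + r = a + l'.length * r := by
        rw [← hlen]; ring
      rwa [h3] at h2

theorem exists_phi {B G : Type} [LinearOrder B] [Group G] (ev : B → G) (hL : LenF (LB ev))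
    (a r N : ℕ) {D : List (List B) → Ch (List (List B))} (hD : IsRes ev a N D) :
    ∃ Φ : List G → Ch (List (List B)), Φ [] = Finsupp.single [] 1 ∧
      ∀ l, SmT (LB ev) a r (N + 1) l →
        (∀ x l', l = x :: l' → Supp (InS ev a x (a + l'.length * r) l.length) (Φ l)) ∧
        lin D (Φ l) = lin Φ (bdl l) := by
  have hzero : ∀ c : Ch (List G), lin (fun _ : List G => (0 : Ch (List (List B)))) c = 0 := by
    intro c
    rw [lin_eq_sum]
    simp
  obtain ⟨u, hu0, hu⟩ := carrier (β := List G) (γ := List (List B)) bdl D List.length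
    (SmT (LB ev) a r (N + 1))
    (by
      intro b hb
      refine supp_mono (supp_bdl b) ?_
      rintro l' ⟨h1, h2⟩
      refine ⟨⟨?_, ?_, ?_⟩, ?_⟩
      · have := hb.1; omega
      · exact fun p hp => hb.2.1 p (h2 p hp)
      · exact fun p hp q hq => hb.2.2 p (h2 p hp) q (h2 q hq)
      · omega)
    (by
      intro b _
      exact bd_bdl b)
    (fun _ => 0)
    (by
      intro b _
      rw [hzero, map_zero])
    (Cr ev a r) (fun _ => Finsupp.single [] 1)
    (by
      intro b _ hb
      have hb' : b = [] := List.length_eq_zero_iff.1 hb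
      subst hb'
      refine ⟨supp_single (Or.inl ⟨rfl, rfl⟩), ?_⟩
      rw [lin_single, hD.nil])
    (by
      intro b hb hb0 ζ hζ hcyc
      cases b with
      | nil => exact absurd rfl hb0
      | cons x l' =>
        have hk : l'.length ≤ N := by
          have := hb.1
          rw [List.length_cons] at this
          omega
        have hs : Supp (InS ev a x (a + l'.length * r) l'.length) ζ := by
          intro z hz
          rcases hζ z hz with h | ⟨b', hb', hz'⟩
          · simp at h
          · exact face_carrier ev hb hb' hz'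
        obtain ⟨d, hd, hd'⟩ := hD.exact l'.length hk x (a + l'.length * r)
          (Nat.le_add_right _ _) ζ hs hcyc
        refine ⟨d, ?_, hd'⟩
        refine supp_mono hd ?_
        intro c hc
        exact Or.inr ⟨x, l', rfl, hc⟩)
  refine ⟨u, ?_, ?_⟩
  · exact hu0 [] ⟨by simp, by simp, by simp⟩ rfl
  · intro l hl
    obtain ⟨h1, h2⟩ := hu l hl
    refine ⟨?_, ?_⟩
    · rintro x l' rfl
      refine supp_mono h1 ?_
      rintro c (⟨h, -⟩ | ⟨x1, l1, h, hc⟩)
      · cases h
      · cases h
        exact hc
    · rw [h2, zero_add]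

end Pool.Agent.VNR
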