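import Mathlib
import Pool.Agent.VNR.Defs
import Pool.Agent.VNR.Alg
import Pool.Agent.VNR.Carrier
import Pool.Agent.VNR.IrrB
import Pool.Agent.VNR.LBDefs
import Pool.Agent.VNR.Phi
/-!
# The homotopy between the identity and the composition of the two chain maps
-/
namespace Pool.Agent.VNR
open Pool.Agent.SLX (val)

/-- The carrier of a tuple, for the homotopy. -/
private def Crh {B G : Type} [Group G] (ev : B → G) (a r : ℕ) (l : List G) (l'' : List G) :
    Prop :=
  l''.length = l.length + 1 ∧ ∃ x l', l = x :: l' ∧
    ∀ p ∈ l'', LB ev a p ∧ LB ev (l.length * r) (p⁻¹ * x)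

theorem exists_hom {B G : Type} [LinearOrder B] [Group G] (ev : B → G) (hL : LenF (LB ev))
    (a r N : ℕ) {D : List (List B) → Ch (List (List B))} (hD : IsRes ev a N D)
    {ψ : List (List B) → Ch (List G)} (hψ0 : ψ [] = Finsupp.single [] 1)
    (hψ : ∀ c, IsGen ev a c → c.length ≤ N + 1 →
        Supp (fun l => l.length = c.length ∧ ∀ p ∈ l, LB ev a p ∧
          LB ev ((tw c).length - a) (p⁻¹ * val ev (tw c))) (ψ c) ∧
        bd (ψ c) = lin ψ (D c))
    {Φ : List G → Ch (List (List B))} (hΦ0 : Φ [] = Finsupp.single [] 1)
    (hΦ : ∀ l, SmT (LB ev) a r (N + 1) l →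
        (∀ x l', l = x :: l' → Supp (InS ev a x (a + l'.length * r) l.length) (Φ l)) ∧
        lin D (Φ l) = lin Φ (bdl l)) :
    ∃ H : List G → Ch (List G), ∀ l, SmT (LB ev) a r (N + 1) l →
      (∀ x l', l = x :: l' → Supp (fun l'' => l''.length = l.length + 1 ∧
        ∀ p ∈ l'', LB ev a p ∧ LB ev (l.length * r) (p⁻¹ * x)) (H l)) ∧
      bd (H l) + lin H (bdl l) = Finsupp.single l 1 + lin ψ (Φ l) := by
  have hgen : ∀ l, SmT (LB ev) a r (N + 1) l → ∀ c ∈ (Φ l).support,
      IsGen ev a c ∧ c.length = l.length := by
    intro l hl c hc
    cases l with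
    | nil =>
      have h1 : Supp (fun c => c = []) (Φ ([] : List G)) := by
        rw [hΦ0]
        exact supp_single rfl
      have h2 : c = [] := h1 c hc
      subst h2
      exact ⟨trivial, rfl⟩
    | cons x l' =>
      have h1 := (hΦ _ hl).1 x l' rfl c hc
      exact ⟨h1.1, h1.2.1⟩
  have hface : ∀ b, SmT (LB ev) a r (N + 1) b →
      Supp (fun b' => SmT (LB ev) a r (N + 1) b' ∧ b'.length < b.length) (bdl b) := by
    intro b hb
    refine supp_mono (supp_bdl b) ?_
    rintro l' ⟨h1, h2⟩
    refine ⟨⟨?_, ?_, ?_⟩, ?_⟩
    · have := hb.1; omega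
    · exact fun p hp => hb.2.1 p (h2 p hp)
    · exact fun p hp q hq => hb.2.2 p (h2 p hp) q (h2 q hq)
    · omega
  have hid : ∀ c : Ch (List G), lin (fun l => (Finsupp.single l 1 : Ch (List G))) c = c := by
    intro c
    have := mp_id c
    unfold mp at this
    simpa using this
  obtain ⟨u, hu0, hu⟩ := carrier (β := List G) (γ := List G) bdl bdl List.length
    (SmT (LB ev) a r (N + 1)) hface
    (by
      intro b _
      exact bd_bdl b)
    (fun l => Finsupp.single l 1 + lin ψ (Φ l))
    (by
      intro b hb
      show bd (Finsupp.single b 1 + lin ψ (Φ b)) = _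
      rw [map_add, lin_add_fun (fun l => (Finsupp.single l 1 : Ch (List G)))
        (fun l => lin ψ (Φ l)), hid, ← lin_lin]
      have h1 : bd (Finsupp.single b 1) = bdl b := by
        unfold bd
        rw [lin_single]
      have h2 : bd (lin ψ (Φ b)) = lin ψ (lin Φ (bdl b)) := by
        rw [← (hΦ b hb).2, lin_lin]
        unfold bd
        rw [lin_lin]
        apply lin_congr
        intro c hc
        obtain ⟨hg, hlen⟩ := hgen b hb c hc
        exact (hψ c hg (by rw [hlen]; exact hb.1)).2
      rw [h1, h2])
    (Crh ev a r) (fun _ => 0)
    (by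
      intro b _ hb
      have hb' : b = [] := List.length_eq_zero_iff.1 hb
      subst hb'
      refine ⟨supp_zero, ?_⟩
      rw [map_zero, hΦ0, lin_single, hψ0, ch_add_self])
    (by
      intro b hb hb0 ζ hζ hcyc
      cases b with
      | nil => exact absurd rfl hb0
      | cons x l' =>
        have hx : LB ev a x := hb.2.1 x (by simp)
        have hs : Supp (fun z : List G => z.length = (x :: l').length ∧
            ∀ p ∈ z, LB ev a p ∧ LB ev ((x :: l').length * r) (p⁻¹ * x)) ζ := by
          intro z hz
          rcases hζ z hz with h | ⟨b', hb', hz', y, m, rfl, hpz⟩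
          · have h4 : Supp (fun w : List G => w = x :: l' ∨ w ∈ (lin ψ (Φ (x :: l'))).support)
                (Finsupp.single (x :: l') 1 + lin ψ (Φ (x :: l'))) :=
              supp_add (supp_single (Or.inl rfl)) (fun w hw => Or.inr hw)
            have h3 := h4 z h
            rcases h3 with rfl | h3
            · refine ⟨rfl, ?_⟩
              intro p hp
              refine ⟨hb.2.1 p hp, ?_⟩
              refine hL.mono r _ _ ?_ (hb.2.2 p hp x (by simp))
              rw [List.length_cons]
              exact Nat.le_mul_of_pos_left r (Nat.succ_pos _)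
            · obtain ⟨c, hc, hzc⟩ := mem_lin h3
              have hIn := (hΦ _ hb).1 x l' rfl c hc
              obtain ⟨hg, hlen, w, hw, hv⟩ := hIn
              have hcne : c ≠ [] := by
                rintro rfl
                simp at hlen
              have hge := tw_length_ge ev hg hcne
              have h6 := (hψ c hg (by rw [hlen]; exact hb.1)).1 z hzc
              refine ⟨by rw [h6.1, hlen], ?_⟩
              intro p hp
              obtain ⟨h7, h8⟩ := h6.2 p hp
              refine ⟨h7, ?_⟩
              have h9 := hL.mul _ w.length _ (val ev w) h8 ⟨w, rfl, rfl⟩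
              rw [mul_assoc, hv] at h9
              refine hL.mono _ _ _ ?_ h9
              have h10 : (x :: l').length * r = l'.length * r + r := by
                rw [List.length_cons]; ring
              rw [h10]
              omega
          · rcases mem_bdl_cons hb' with h | ⟨m', hm', h⟩
            · subst h
              refine ⟨?_, ?_⟩
              · rw [hz']
                rfl
              · intro p hp
                obtain ⟨h7, h8⟩ := hpz p hp
                refine ⟨h7, ?_⟩
                have h9 := hL.mul _ _ _ _ h8 (hb.2.2 y (by simp) x (by simp))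
                have h10 : p⁻¹ * y * (y⁻¹ * x) = p⁻¹ * x := by group
                rw [h10] at h9
                have h11 : (y :: m).length * r + r = (x :: y :: m).length * r := by
                  rw [List.length_cons (a := x)]; ring
                rwa [h11] at h9
            · cases h
              have hlen : m.length + 1 = l'.length := (supp_bdl l' m hm').1
              refine ⟨?_, ?_⟩
              · rw [hz', List.length_cons, List.length_cons, hlen]
              · intro p hp
                obtain ⟨h7, h8⟩ := hpz p hp
                refine ⟨h7, ?_⟩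
                refine hL.mono _ _ _ ?_ h8
                apply Nat.mul_le_mul_right
                rw [List.length_cons, List.length_cons]
                omega
        refine ⟨cone x ζ, ?_, ?_⟩
        · refine supp_cone hs ?_
          rintro z ⟨h1, h2⟩
          refine ⟨by rw [List.length_cons, h1], x, l', rfl, ?_⟩
          intro p hp
          rcases List.mem_cons.1 hp with rfl | hp
          · refine ⟨hx, ?_⟩
            rw [inv_mul_cancel]
            exact hL.mono 0 _ _ (Nat.zero_le _) hL.one
          · exact h2 p hp
        · have h1 := bd_cone x ζ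
          have h2 : bd ζ = 0 := hcyc
          rw [h2, map_zero, add_zero] at h1
          exact h1)
  refine ⟨u, ?_⟩
  intro l hl
  obtain ⟨h1, h2⟩ := hu l hl
  refine ⟨?_, ?_⟩
  · rintro x l' rfl
    refine supp_mono h1 ?_
    rintro z ⟨h3, y, m, h4, h5⟩
    cases h4
    exact ⟨h3, h5⟩
  · have h3 : bd (u l) = Finsupp.single l 1 + lin ψ (Φ l) + lin u (bdl l) := h2
    rw [h3, add_assoc, ch_add_self, add_zero]

end Pool.Agent.VNR
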