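import Mathlib
import Pool.Agent.VNR.Defs
import Pool.Agent.VNR.Alg
import Pool.Agent.VNR.Carrier
import Pool.Agent.VNR.IrrB
import Pool.Agent.VNR.LBDefs
/-!
# From the resolution to tuples
-/
namespace Pool.Agent.VNR
open Pool.Agent.SLX (val)

/-- The carrier of a generator. -/
private def CarP {B G : Type} [LinearOrder B] [Group G] (ev : B → G) (a : ℕ)
    (c : List (List B)) (l : List G) : Prop :=
  l.length = c.length ∧ ∀ p ∈ l, LB ev a p ∧
    LB ev ((tw c).length - a) (p⁻¹ * val ev (tw c))

private theorem carP_past {B G : Type} [LinearOrder B] [Group G] (ev : B → G) {a : ℕ}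
    {c c' : List (List B)} (hc' : IsGen ev a c')
    (hp : Past ev (val ev (tw c')) (tw c').length (val ev (tw c)) (tw c).length)
    {l : List G} (hl : CarP ev a c' l) {p : G} (hpl : p ∈ l) :
    LB ev a p ∧ LB ev ((tw c).length - a) (p⁻¹ * val ev (tw c)) := by
  obtain ⟨hlen, hpts⟩ := hl
  obtain ⟨h1, v, hv, hvv⟩ := hpts p hpl
  obtain ⟨w, hw, hww⟩ := hp
  have hne : c' ≠ [] := by
    rintro rfl
    have : l = [] := List.length_eq_zero_iff.1 hlen
    rw [this] at hpl
    exact List.not_mem_nil hpl
  have hge := tw_length_ge ev hc' hne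
  refine ⟨h1, v ++ w, ?_, ?_⟩
  · rw [List.length_append]
    omega
  · rw [val_app, hvv, ← hww, mul_assoc]

private theorem carP_apex {B G : Type} [LinearOrder B] [Group G] (ev : B → G) {a : ℕ}
    {c : List (List B)} {x t : List B} (e : tw c = x ++ t) (hx : x.length = a) :
    LB ev a (val ev x) ∧ LB ev ((tw c).length - a) ((val ev x)⁻¹ * val ev (tw c)) := by
  refine ⟨⟨x, hx, rfl⟩, t, ?_, ?_⟩
  · rw [e, List.length_append]
    omega
  · rw [e, val_app, inv_mul_cancel_left]

theorem exists_psi {B G : Type} [LinearOrder B] [Group G] (ev : B → G) (hL : LenF (LB ev))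
    (a N : ℕ) {D : List (List B) → Ch (List (List B))} (hD : IsRes ev a N D) :
    ∃ ψ : List (List B) → Ch (List G), ψ [] = Finsupp.single [] 1 ∧
      ∀ c, IsGen ev a c → c.length ≤ N + 1 →
        Supp (fun l => l.length = c.length ∧ ∀ p ∈ l, LB ev a p ∧
          LB ev ((tw c).length - a) (p⁻¹ * val ev (tw c))) (ψ c) ∧
        bd (ψ c) = lin ψ (D c) := by
  have hzero : ∀ c : Ch (List (List B)),
      lin (fun _ : List (List B) => (0 : Ch (List G))) c = 0 := by
    intro c
    rw [lin_eq_sum]
    simp
  obtain ⟨u, hu0, hu⟩ := carrier (β := List (List B)) (γ := List G) D bdl List.length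
    (fun c => IsGen ev a c ∧ c.length ≤ N + 1)
    (by
      rintro b ⟨hb, hb'⟩
      cases b with
      | nil =>
        rw [hD.nil]
        exact supp_zero
      | cons y c =>
        have hk : c.length ≤ N := by
          rw [List.length_cons] at hb'
          omega
        refine supp_mono (hD.supp y c hb hk) ?_
        rintro c' ⟨h1, h2, -⟩
        refine ⟨⟨h1, by omega⟩, ?_⟩
        rw [List.length_cons]
        omega)
    (by
      rintro b ⟨hb, hb'⟩
      exact hD.sq b hb hb')
    (fun _ => 0)
    (by
      intro b _
      rw [hzero, map_zero])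
    (CarP ev a) (fun _ => Finsupp.single [] 1)
    (by
      intro b _ hb
      have hb' : b = [] := List.length_eq_zero_iff.1 hb
      subst hb'
      refine ⟨supp_single ⟨rfl, fun p hp => absurd hp List.not_mem_nil⟩, ?_⟩
      rw [lin_single]
      rfl)
    (by
      rintro b ⟨hb, hbN⟩ hb0 ζ hζ hcyc
      have hbne : b ≠ [] := by
        rintro rfl
        exact hb0 rfl
      obtain ⟨x, t, e, hx⟩ := exists_point ev hb hbne
      refine ⟨cone (val ev x) ζ, ?_, ?_⟩
      · refine supp_cone (P := fun l => l.length + 1 = b.length ∧ ∀ p ∈ l, LB ev a p ∧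
          LB ev ((tw b).length - a) (p⁻¹ * val ev (tw b))) ?_ ?_
        · intro z hz
          rcases hζ z hz with h | ⟨b', hb', hz'⟩
          · simp at h
          · cases b with
            | nil => exact absurd rfl hbne
            | cons y c =>
              have hk : c.length ≤ N := by
                rw [List.length_cons] at hbN
                omega
              obtain ⟨h1, h2, h3⟩ := hD.supp y c hb hk b' hb'
              refine ⟨?_, ?_⟩
              · rw [hz'.1, h2, List.length_cons]
              · intro p hp
                exact carP_past ev h1 h3 hz' hp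
        · rintro l ⟨h1, h2⟩
          refine ⟨?_, ?_⟩
          · rw [List.length_cons]
            exact h1
          · intro p hp
            rcases List.mem_cons.1 hp with rfl | hp
            · exact carP_apex ev e hx
            · exact h2 p hp
      · have h := bd_cone (val ev x) ζ
        have hcyc' : bd ζ = 0 := hcyc
        rw [hcyc', map_zero, add_zero] at h
        exact h)
  refine ⟨u, ?_, ?_⟩
  · exact hu0 [] ⟨trivial, Nat.zero_le _⟩ rfl
  · intro c hc hcN
    obtain ⟨h1, h2⟩ := hu c ⟨hc, hcN⟩
    refine ⟨h1, ?_⟩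
    rw [zero_add] at h2
    exact h2

end Pool.Agent.VNR
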