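import Mathlib
import Pool.Agent.VNR.Defs
import Pool.Agent.VNR.Alg
import Pool.Agent.VNR.IrrB
/-!
# Resolution: continuation words
-/
namespace Pool.Agent.VNR
open Pool.Agent.SLX (val)

variable {B G : Type} [LinearOrder B] [Group G] (ev : B → G)

/-- `v` is the least continuation of `c` to `g` at time `n`. -/
def Wd (g : G) (n : ℕ) (c : List (List B)) (v : List B) : Prop :=
  Irr ev v ∧ (tw c ++ v).length = n ∧ val ev (tw c ++ v) = g

/-- Generators of length `k` whose total word, continued to `g` at time `n`, satisfies `Q`. -/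
def InQ (a : ℕ) (g : G) (n k : ℕ) (Q : List B → Prop) (c : List (List B)) : Prop :=
  IsGen ev a c ∧ c.length = k ∧ ∃ v, Wd ev g n c v ∧ Q (tw c ++ v)

/-- Partial resolution: boundaries of the generators of length at most `k`. -/
structure PR (a k : ℕ) (D : List (List B) → Ch (List (List B))) : Prop where
  nil : D [] = 0
  lead : ∀ y c, IsGen ev a (y :: c) → c.length < k → ∃ η, D (y :: c) = Finsupp.single c 1 + η ∧
    Supp (InQ ev a (val ev (tw (y :: c))) (tw (y :: c)).length c.length
      (fun w => w < tw (y :: c))) η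
  sq : ∀ y c, IsGen ev a (y :: c) → c.length < k → lin D (D (y :: c)) = 0

theorem wd_exists [Finite B] {g : G} {n : ℕ} {c : List (List B)}
    (h : Past ev (val ev (tw c)) (tw c).length g n) : ∃ v, Wd ev g n c v := by
  obtain ⟨w, hw, hg⟩ := h
  obtain ⟨v, h1, h2, h3, -, -⟩ := exists_irr ev w
  exact ⟨v, h1, by rw [List.length_append, h2, hw], by rw [val_app, h3, hg]⟩

theorem wd_unique {g : G} {n : ℕ} {c : List (List B)} {v v' : List B} (h : Wd ev g n c v)
    (h' : Wd ev g n c v') : v = v' := by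
  obtain ⟨h1, h2, h3⟩ := h
  obtain ⟨h1', h2', h3'⟩ := h'
  rw [List.length_append] at h2 h2'
  rw [val_app] at h3 h3'
  refine irr_unique ev h1 h1' (by omega) ?_
  exact mul_left_cancel (h3.trans h3'.symm)

theorem wd_past {g : G} {n : ℕ} {c : List (List B)} {v : List B} (h : Wd ev g n c v) :
    Past ev (val ev (tw c)) (tw c).length g n := by
  obtain ⟨-, h2, h3⟩ := h
  exact ⟨v, by rw [← List.length_append]; exact h2, by rw [← val_app]; exact h3⟩

private theorem resd_le_left {u v : List B} (p : List B) (h : u ≤ v) : p ++ u ≤ p ++ v := by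
  rcases h.lt_or_eq with h | h
  · exact (lt_app_left h p).le
  · rw [h]

/-- Continuations and the passage to a later point `g` at time `n`. -/
theorem wd_mono [Finite B] {g' g : G} {n' n : ℕ} {c : List (List B)} {v' u : List B}
    (h : Wd ev g' n' c v') (hn : n' + u.length = n) (hg : g' * val ev u = g) :
    ∃ v, Wd ev g n c v ∧ tw c ++ v ≤ tw c ++ v' ++ u ∧
      (¬ Irr ev (v' ++ u) → tw c ++ v < tw c ++ v' ++ u) ∧
      (Irr ev (v' ++ u) → v = v' ++ u) := by
  obtain ⟨h1, h2, h3⟩ := h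
  obtain ⟨v, w1, w2, w3, w4, w5⟩ := exists_irr ev (v' ++ u)
  refine ⟨v, ⟨w1, ?_, ?_⟩, ?_, ?_, ?_⟩
  · rw [List.length_append] at h2 w2 ⊢
    omega
  · rw [val_app, w3, val_app, ← mul_assoc, ← val_app, h3, hg]
  · rw [List.append_assoc]
    exact resd_le_left (tw c) w4
  · intro hn'
    rw [List.append_assoc]
    exact lt_app_left (w5 hn') (tw c)
  · intro hI
    exact irr_unique ev w1 hI w2 w3

/-- The continuation of `y :: c` gives the one of `c`. -/
theorem wd_tail [Finite B] {g : G} {n : ℕ} {c : List (List B)} {y v : List B}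
    (h : Wd ev g n (y :: c) v) : ∃ v', Wd ev g n c v' ∧ tw c ++ v' ≤ tw (y :: c) ++ v ∧
      (¬ Irr ev (y ++ v) → tw c ++ v' < tw (y :: c) ++ v) ∧
      (Irr ev (y ++ v) → v' = y ++ v) := by
  obtain ⟨h1, h2, h3⟩ := h
  obtain ⟨v', w1, w2, w3, w4, w5⟩ := exists_irr ev (y ++ v)
  have e : tw (y :: c) ++ v = tw c ++ (y ++ v) := by
    show (tw c ++ y) ++ v = tw c ++ (y ++ v)
    rw [List.append_assoc]
  rw [e] at h2 h3 ⊢
  refine ⟨v', ⟨w1, ?_, ?_⟩, ?_, ?_, ?_⟩
  · rw [List.length_append] at h2 ⊢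
    omega
  · rw [val_app, w3, ← val_app]
    exact h3
  · exact resd_le_left (tw c) w4
  · intro hn'
    exact lt_app_left (w5 hn') (tw c)
  · intro hI
    exact irr_unique ev w1 hI w2 w3

end Pool.Agent.VNR
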