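import Mathlib
import Pool.Agent.VNR.Defs
import Pool.Agent.VNR.Alg
import Pool.Agent.VNR.IrrB
import Pool.Agent.VNR.ResD
/-!
# Resolution: exactness
-/
namespace Pool.Agent.VNR
open Pool.Agent.SLX (val)

section
variable {B G : Type} [LinearOrder B] [Group G] {ev : B → G}

private theorem resA_head {a : ℕ} {x : List B} {c : List (List B)} (h : IsGen ev a (x :: c)) :
    Irr ev x := by
  cases c with
  | nil => exact h.1
  | cons y c => exact h.1

private theorem resA_supp_sum {X Y : Type} {P : X → Prop} (s : Finset Y) (f : Y → Ch X)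
    (h : ∀ y ∈ s, Supp P (f y)) : Supp P (∑ y ∈ s, f y) := by
  classical
  induction s using Finset.induction_on with
  | empty => rw [Finset.sum_empty]; exact supp_zero
  | insert y s hy ih =>
    rw [Finset.sum_insert hy]
    exact supp_add (h y (Finset.mem_insert_self _ _))
      (ih fun z hz => h z (Finset.mem_insert_of_mem hz))

/-- The boundary of a generator, continued to `g` at time `n`. -/
private theorem resA_lead [Finite B] {a k : ℕ} {D : List (List B) → Ch (List (List B))}
    (h : PR ev a (k + 1) D) {g : G} {n : ℕ} {y v : List B} {c : List (List B)}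
    (hg : IsGen ev a (y :: c)) (hc : c.length < k + 1) (hv : Wd ev g n (y :: c) v) :
    ∃ η, D (y :: c) = Finsupp.single c 1 + η ∧
      Supp (InQ ev a g n c.length (fun u => u < tw (y :: c) ++ v)) η := by
  obtain ⟨η, e, hη⟩ := h.lead y c hg hc
  refine ⟨η, e, supp_mono hη ?_⟩
  rintro d ⟨hd1, hd2, v'', hw, hlt⟩
  obtain ⟨-, hv2, hv3⟩ := hv
  obtain ⟨v3, hw3, hle, -, -⟩ := wd_mono ev hw (u := v) (n := n) (g := g)
    (by rw [← hv2, List.length_append]) (by rw [← hv3, val_app])
  exact ⟨hd1, hd2, v3, hw3, hle.trans_lt (lt_app_right hw.2.1 hlt v)⟩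

/-- Two generators with the same tail and the same continuation of the tail. -/
private theorem resA_head_unique {a : ℕ} {x x' v v' : List B} {c : List (List B)}
    (h : IsGen ev a (x :: c)) (h' : IsGen ev a (x' :: c)) (e : x ++ v = x' ++ v') : x = x' := by
  cases c with
  | nil => exact (List.append_inj e (h.2.trans h'.2.symm)).1
  | cons y c => exact (short_unique ev e h.2.1 h.2.2.1 h'.2.1 h'.2.2.1).1

/-- The leading generators of a cycle are extendable. -/
private theorem resA_notIrr [Finite B] {a k : ℕ} {D : List (List B) → Ch (List (List B))}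
    (h : PR ev a (k + 1) D) {g : G} {n : ℕ} {w : List B} {ξ : Ch (List (List B))}
    (hξ : Supp (InQ ev a g n k (fun u => u ≤ w)) ξ) (hc : lin D ξ = 0)
    {x v : List B} {c : List (List B)} (hx : (x :: c) ∈ ξ.support) (hv : Wd ev g n (x :: c) v)
    (hw : tw (x :: c) ++ v = w) : ¬ Irr ev (x ++ v) := by
  intro hI
  obtain ⟨hg, hk, -⟩ := hξ _ hx
  -- the continuation of the tail
  obtain ⟨v', hv', -, -, hvI⟩ := wd_tail ev hv
  have ev' : v' = x ++ v := hvI hI
  subst ev'
  have hWc : tw c ++ (x ++ v) = w := by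
    rw [← List.append_assoc]; exact hw
  have hone : ((D (x :: c)) c : ZMod 2) = 1 := by
    obtain ⟨η, e, hη⟩ := resA_lead h hg (by simp at hk; omega) hv
    have h0 : η c = 0 := by
      by_contra hne
      obtain ⟨-, -, v1, hv1, hlt⟩ := hη c (Finsupp.mem_support_iff.2 hne)
      rw [wd_unique ev hv1 hv', hWc, hw] at hlt
      exact lt_irrefl _ hlt
    rw [e, Finsupp.add_apply, h0, Finsupp.single_eq_same, add_zero]
  have hzero : ∀ d ∈ ξ.support, d ≠ x :: c → ((D d) c : ZMod 2) = 0 := by
    intro d hd hne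
    obtain ⟨hgd, hkd, v1, hv1, hle1⟩ := hξ d hd
    cases d with
    | nil => simp at hkd hk; omega
    | cons y d =>
      obtain ⟨η, e, hη⟩ := resA_lead h hgd (by simp at hkd; omega) hv1
      have h0 : η c = 0 := by
        by_contra hne
        obtain ⟨-, -, v2, hv2, hlt⟩ := hη c (Finsupp.mem_support_iff.2 hne)
        rw [wd_unique ev hv2 hv', hWc] at hlt
        exact lt_irrefl _ (hlt.trans_le hle1)
      have h1 : d ≠ c := by
        rintro rfl
        obtain ⟨v2, hv2, hle2, hlt2, hI2⟩ := wd_tail ev hv1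
        have e2 := wd_unique ev hv2 hv'
        subst e2
        rw [hWc] at hle2 hlt2
        have hI3 : Irr ev (y ++ v1) := by
          by_contra hI3
          exact lt_irrefl _ ((hlt2 hI3).trans_le hle1)
        exact hne (by rw [resA_head_unique hg hgd (hI2 hI3)])
      rw [e, Finsupp.add_apply, h0, Finsupp.single_eq_of_ne' h1, add_zero]
  have hsum : (lin D ξ) c = 1 := by
    rw [lin_eq_sum, Finsupp.finsetSum_apply, Finset.sum_eq_single (x :: c) hzero, hone]
    intro hn
    exact absurd hx hn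
  rw [hc] at hsum
  exact absurd hsum (by simp)

/-- The leading generators of a cycle are extendable. -/
private theorem resA_ext [Finite B] {a k : ℕ} {D : List (List B) → Ch (List (List B))}
    (h : PR ev a (k + 1) D) {g : G} {n : ℕ} (hn : a ≤ n) {w : List B} {ξ : Ch (List (List B))}
    (hξ : Supp (InQ ev a g n k (fun u => u ≤ w)) ξ) (hc : lin D ξ = 0)
    {v : List B} {c : List (List B)} (hx : c ∈ ξ.support) (hv : Wd ev g n c v)
    (hw : tw c ++ v = w) : ∃ y v' : List B, IsGen ev a (y :: c) ∧ Wd ev g n (y :: c) v' ∧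
      tw (y :: c) ++ v' = w := by
  have key : ∀ y v' : List B, v = y ++ v' → IsGen ev a (y :: c) →
      ∃ y v' : List B, IsGen ev a (y :: c) ∧ Wd ev g n (y :: c) v' ∧ tw (y :: c) ++ v' = w := by
    intro y v' e hg
    have e2 : tw (y :: c) ++ v' = tw c ++ v := by
      rw [e, ← List.append_assoc]; rfl
    refine ⟨y, v', hg, ⟨?_, ?_, ?_⟩, by rw [e2, hw]⟩
    · exact irr_right ev (u := y) (by rw [← e]; exact hv.1)
    · rw [e2]; exact hv.2.1
    · rw [e2]; exact hv.2.2
  cases c with
  | nil =>
    have hl : v.length = n := hv.2.1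
    refine key (v.take a) (v.drop a) (List.take_append_drop a v).symm ⟨?_, ?_⟩
    · exact irr_left ev (v := v.drop a) (by rw [List.take_append_drop]; exact hv.1)
    · rw [List.length_take]; omega
  | cons x c =>
    have hnI := resA_notIrr h hξ hc hx hv hw
    obtain ⟨hg, -, -⟩ := hξ _ hx
    obtain ⟨y, v', e, h1, h2⟩ := exists_short ev (resA_head hg) hnI
    refine key y v' e ⟨?_, h1, h2, hg⟩
    exact irr_left ev (v := v') (by rw [← e]; exact hv.1)

end

theorem exact_step {B G : Type} [LinearOrder B] [Finite B] [Group G] (ev : B → G) {a k : ℕ}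
    {D : List (List B) → Ch (List (List B))} (h : PR ev a (k + 1) D) (g : G) (n : ℕ)
    (hn : a ≤ n) (Q : List B → Prop) (hQ : ∀ u w : List B, u < w → Q w → Q u)
    (ξ : Ch (List (List B))) (hξ : Supp (InQ ev a g n k Q) ξ) (hc : lin D ξ = 0) :
    ∃ η, Supp (InQ ev a g n (k + 1) Q) η ∧ lin D η = ξ := by
  classical
  -- the statement for bounded words
  have main : ∀ w : List B, w.length = n → ∀ ξ : Ch (List (List B)),
      Supp (InQ ev a g n k (fun u => u ≤ w ∧ Q u)) ξ → lin D ξ = 0 →
      ∃ η, Supp (InQ ev a g n (k + 1) Q) η ∧ lin D η = ξ := by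
    refine len_induction n ?_
    intro w hw ih ξ hξ hc
    have hξ' : Supp (InQ ev a g n k (fun u => u ≤ w)) ξ :=
      supp_mono hξ fun d hd => ⟨hd.1, hd.2.1, hd.2.2.imp fun v hv => ⟨hv.1, hv.2.1⟩⟩
    set S := ξ.support.filter (fun c => ∃ v, Wd ev g n c v ∧ tw c ++ v = w) with hS
    have hext : ∀ c ∈ S, ∃ y v' : List B, IsGen ev a (y :: c) ∧ Wd ev g n (y :: c) v' ∧
        tw (y :: c) ++ v' = w := by
      intro c hcS
      obtain ⟨hx, v, hv, hvw⟩ := Finset.mem_filter.1 hcS
      exact resA_ext h hn hξ' hc hx hv hvw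
    choose! Y V hY using hext
    have hlen : ∀ c ∈ S, c.length = k := fun c hcS => (hξ c (Finset.mem_filter.1 hcS).1).2.1
    have hQw : ∀ c ∈ S, Q w := by
      intro c hcS
      obtain ⟨hx, v, hv, hvw⟩ := Finset.mem_filter.1 hcS
      obtain ⟨-, -, v', hv', -, hq⟩ := hξ c hx
      rw [wd_unique ev hv' hv, hvw] at hq
      exact hq
    have hlead : ∀ c ∈ S, ∃ η, D (Y c :: c) = Finsupp.single c 1 + η ∧
        Supp (InQ ev a g n k (fun u => u < w ∧ Q u)) η := by
      intro c hcS
      obtain ⟨h1, h2, h3⟩ := hY c hcS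
      obtain ⟨η, e, hη⟩ := resA_lead h h1 (by rw [hlen c hcS]; omega) h2
      refine ⟨η, e, supp_mono hη ?_⟩
      rintro d ⟨hd1, hd2, v, hv, hlt⟩
      rw [h3] at hlt
      exact ⟨hd1, hd2.trans (hlen c hcS), v, hv, hlt, hQ _ _ hlt (hQw c hcS)⟩
    choose! H hH using hlead
    set η1 : Ch (List (List B)) := ∑ c ∈ S, Finsupp.single (Y c :: c) 1 with hη1
    have hs1 : Supp (InQ ev a g n (k + 1) Q) η1 := by
      refine resA_supp_sum S _ fun c hcS => supp_single ?_
      obtain ⟨h1, h2, h3⟩ := hY c hcS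
      refine ⟨h1, ?_, V c, h2, ?_⟩
      · rw [List.length_cons, hlen c hcS]
      · rw [h3]; exact hQw c hcS
    have hl1 : lin D η1 = ∑ c ∈ S, D (Y c :: c) := by
      rw [hη1, map_sum]
      exact Finset.sum_congr rfl fun c _ => lin_single _ _
    have hl2 : lin D (lin D η1) = 0 := by
      rw [hl1, map_sum]
      refine Finset.sum_eq_zero fun c hcS => h.sq _ _ (hY c hcS).1 ?_
      rw [hlen c hcS]; omega
    -- the rest
    have hrest : Supp (InQ ev a g n k (fun u => u < w ∧ Q u)) (ξ + lin D η1) := by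
      have e : ξ + lin D η1 = (ξ + ∑ c ∈ S, Finsupp.single c 1) + ∑ c ∈ S, H c := by
        rw [hl1, add_assoc, ← Finset.sum_add_distrib]
        congr 1
        exact Finset.sum_congr rfl fun c hcS => (hH c hcS).1
      rw [e]
      refine supp_add ?_ (resA_supp_sum S _ fun c hcS => (hH c hcS).2)
      intro d hd
      rw [Finsupp.mem_support_iff, Finsupp.add_apply, Finsupp.finsetSum_apply] at hd
      have hsum : ∑ c ∈ S, (Finsupp.single c (1 : ZMod 2) : Ch (List (List B))) d =
          if d ∈ S then 1 else 0 := by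
        rw [← Finset.sum_ite_eq' S d (fun _ => (1 : ZMod 2))]
        refine Finset.sum_congr rfl fun c _ => ?_
        rw [Finsupp.single_apply]
      rw [hsum] at hd
      by_cases hdS : d ∈ S
      · exfalso
        rw [if_pos hdS] at hd
        have h1 : ξ d ≠ 0 := Finsupp.mem_support_iff.1 (Finset.mem_filter.1 hdS).1
        revert h1 hd
        generalize ξ d = t
        revert t
        decide
      · rw [if_neg hdS, add_zero] at hd
        have hd' := Finsupp.mem_support_iff.2 hd
        obtain ⟨h1, h2, v, hv, hle, hq⟩ := hξ d hd'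
        refine ⟨h1, h2, v, hv, lt_of_le_of_ne hle ?_, hq⟩
        intro he
        exact hdS (Finset.mem_filter.2 ⟨hd', v, hv, he⟩)
    have hcr : lin D (ξ + lin D η1) = 0 := by rw [map_add, hc, hl2, add_zero]
    obtain ⟨η2, hs2, hl3⟩ : ∃ η2, Supp (InQ ev a g n (k + 1) Q) η2 ∧
        lin D η2 = ξ + lin D η1 := by
      by_cases h0 : (ξ + lin D η1) = 0
      · exact ⟨0, supp_zero, by rw [map_zero, h0]⟩
      · have hne : (ξ + lin D η1).support.Nonempty := Finsupp.support_nonempty_iff.2 h0
        have hf : ∀ c ∈ (ξ + lin D η1).support, ∃ u : List B, u < w ∧ u.length = n ∧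
            ∃ v, Wd ev g n c v ∧ tw c ++ v = u := by
          intro c hcs
          obtain ⟨-, -, v, hv, hlt, -⟩ := hrest c hcs
          exact ⟨tw c ++ v, hlt, hv.2.1, v, hv, rfl⟩
        choose! f hf using hf
        obtain ⟨c1, hc1, hmax⟩ := Finset.exists_max_image _ f hne
        refine ih (f c1) (hf c1 hc1).2.1 (hf c1 hc1).1 _ ?_ hcr
        intro d hd
        obtain ⟨h1, h2, v, hv, -, hq⟩ := hrest d hd
        refine ⟨h1, h2, v, hv, ?_, hq⟩
        obtain ⟨-, -, v', hv', e⟩ := hf d hd
        rw [wd_unique ev hv hv', e]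
        exact hmax d hd
    refine ⟨η2 + η1, supp_add hs2 hs1, ?_⟩
    rw [map_add, hl3, add_assoc, ch_add_self, add_zero]
  -- the start
  by_cases h0 : ξ = 0
  · exact ⟨0, supp_zero, by rw [map_zero, h0]⟩
  · have hne : ξ.support.Nonempty := Finsupp.support_nonempty_iff.2 h0
    have hf : ∀ c ∈ ξ.support, ∃ u : List B, u.length = n ∧
        ∃ v, Wd ev g n c v ∧ tw c ++ v = u := by
      intro c hcs
      obtain ⟨-, -, v, hv, -⟩ := hξ c hcs
      exact ⟨tw c ++ v, hv.2.1, v, hv, rfl⟩
    choose! f hf using hf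
    obtain ⟨c1, hc1, hmax⟩ := Finset.exists_max_image _ f hne
    refine main (f c1) (hf c1 hc1).1 _ ?_ hc
    intro d hd
    obtain ⟨h1, h2, v, hv, hq⟩ := hξ d hd
    refine ⟨h1, h2, v, hv, ?_, hq⟩
    obtain ⟨-, v', hv', e⟩ := hf d hd
    rw [wd_unique ev hv hv', e]
    exact hmax d hd

end Pool.Agent.VNR
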