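import Mathlib
import Pool.Agent.VNR.Defs
import Pool.Agent.VNR.Alg
import Pool.Agent.VNR.IrrB
import Pool.Agent.VNR.ResD
import Pool.Agent.VNR.ResA
/-!
# Resolution: construction of the boundaries
-/
namespace Pool.Agent.VNR
open Pool.Agent.SLX (val)

variable {B G : Type} [LinearOrder B] [Group G] (ev : B → G)

theorem exists_pr_one (a : ℕ) : ∃ D : List (List B) → Ch (List (List B)), PR ev a 1 D := by
  classical
  let D : List (List B) → Ch (List (List B)) := fun l =>
    match l with
    | [_] => Finsupp.single [] 1
    | _ => 0
  refine ⟨D, ⟨rfl, ?_, ?_⟩⟩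
  · intro y c _ hc
    have : c = [] := List.length_eq_zero_iff.1 (by omega)
    subst this
    refine ⟨0, ?_, supp_zero⟩
    show Finsupp.single [] 1 = Finsupp.single [] 1 + 0
    rw [add_zero]
  · intro y c _ hc
    have : c = [] := List.length_eq_zero_iff.1 (by omega)
    subst this
    show lin D (Finsupp.single [] 1) = 0
    rw [lin_single]

variable {ev} in
/-- The boundary of the tail of a generator lies in the past of the generator. -/
private theorem resB_supp [Finite B] {a k : ℕ} {D : List (List B) → Ch (List (List B))}
    (h : PR ev a (k + 1) D) {y : List B} {c : List (List B)} (hg : IsGen ev a (y :: c))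
    (hc : c.length = k + 1) : Supp (InQ ev a (val ev (tw (y :: c))) (tw (y :: c)).length k
      (fun w => w < tw (y :: c))) (D c) := by
  obtain ⟨y', c'', rfl⟩ : ∃ y' c'', c = y' :: c'' := by
    cases c with
    | nil => simp at hc
    | cons x l => exact ⟨x, l, rfl⟩
  have hk : c''.length = k := by simpa using hc
  obtain ⟨hy, hn, _, hc'⟩ := hg
  obtain ⟨η, hη, hs⟩ := h.lead y' c'' hc' (by omega)
  rw [hη]
  refine supp_add (supp_single ?_) (supp_mono hs ?_)
  · have hw : Wd ev (val ev (tw (y :: y' :: c''))) (tw (y :: y' :: c'')).length (y' :: c'') y :=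
      ⟨hy, rfl, rfl⟩
    obtain ⟨v', hv', _, hlt, _⟩ := wd_tail ev hw
    exact ⟨isGen_tail ev hc', hk, v', hv', hlt hn⟩
  · rintro l ⟨hl, hll, v, hv, hQ⟩
    have hlen : (tw l ++ v).length = (tw (y' :: c'')).length := hv.2.1
    obtain ⟨v1, hv1, hle, _, _⟩ := wd_mono ev (g := val ev (tw (y :: y' :: c'')))
      (n := (tw (y :: y' :: c'')).length) (u := y) hv
      (by show (tw (y' :: c'')).length + y.length = (tw (y' :: c'') ++ y).length
          rw [List.length_append])
      (by show val ev (tw (y' :: c'')) * val ev y = val ev (tw (y' :: c'') ++ y)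
          rw [val_app])
    refine ⟨hl, hll.trans hk, v1, hv1, lt_of_le_of_lt hle ?_⟩
    exact lt_app_right hlen hQ y

theorem extend_pr [Finite B] {a k : ℕ} {D : List (List B) → Ch (List (List B))}
    (h : PR ev a (k + 1) D) : ∃ D' : List (List B) → Ch (List (List B)), PR ev a (k + 2) D' := by
  classical
  have key : ∀ (y : List B) (c : List (List B)), IsGen ev a (y :: c) → c.length = k + 1 →
      ∃ η, Supp (InQ ev a (val ev (tw (y :: c))) (tw (y :: c)).length (k + 1)
        (fun w => w < tw (y :: c))) η ∧ lin D η = D c := by
    intro y c hg hc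
    have hs := resB_supp h hg hc
    refine exact_step ev h _ _ (tw_length_ge ev hg (List.cons_ne_nil _ _)) _
      (fun u w huw hw => huw.trans hw) _ hs ?_
    obtain ⟨y', c'', rfl⟩ : ∃ y' c'', c = y' :: c'' := by
      cases c with
      | nil => simp at hc
      | cons x l => exact ⟨x, l, rfl⟩
    have hk : c''.length = k := by simpa using hc
    exact h.sq y' c'' (isGen_tail ev hg) (by omega)
  choose! η hη using key
  let D' : List (List B) → Ch (List (List B)) := fun l =>
    match l with
    | [] => D []
    | y :: c => if c.length = k + 1 then Finsupp.single c 1 + η y c else D (y :: c)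
  have hD : ∀ l : List (List B), l.length ≤ k + 1 → D' l = D l := by
    intro l hl
    cases l with
    | nil => rfl
    | cons y c =>
      have : c.length ≠ k + 1 := by
        have h1 : c.length + 1 ≤ k + 1 := by simpa using hl
        omega
      show (if c.length = k + 1 then _ else D (y :: c)) = _
      rw [if_neg this]
  have hD' : ∀ (y : List B) (c : List (List B)), c.length = k + 1 →
      D' (y :: c) = Finsupp.single c 1 + η y c := by
    intro y c hc
    show (if c.length = k + 1 then _ else D (y :: c)) = _
    rw [if_pos hc]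
  have hlin : ∀ ξ : Ch (List (List B)), Supp (fun l => l.length ≤ k + 1) ξ →
      lin D' ξ = lin D ξ := fun ξ hξ => lin_congr _ _ _ fun l hl => hD l (hξ l hl)
  refine ⟨D', ⟨h.nil, ?_, ?_⟩⟩
  · intro y c hg hc
    rcases Nat.lt_or_ge c.length (k + 1) with hlt | hge
    · rw [hD (y :: c) (by rw [List.length_cons]; omega)]
      exact h.lead y c hg hlt
    · have hck : c.length = k + 1 := by omega
      refine ⟨η y c, hD' y c hck, ?_⟩
      rw [hck]
      exact (hη y c hg hck).1
  · intro y c hg hc
    rcases Nat.lt_or_ge c.length (k + 1) with hlt | hge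
    · rw [hD (y :: c) (by rw [List.length_cons]; omega), hlin, h.sq y c hg hlt]
      obtain ⟨η', hη', hs⟩ := h.lead y c hg hlt
      rw [hη']
      refine supp_add (supp_single (by omega)) (supp_mono hs ?_)
      rintro l ⟨_, hl, _⟩
      omega
    · have hck : c.length = k + 1 := by omega
      rw [hD' y c hck, map_add, lin_single, hD c (by omega), hlin, (hη y c hg hck).2, ch_add_self]
      refine supp_mono (hη y c hg hck).1 ?_
      rintro l ⟨_, hl, _⟩
      omega

end Pool.Agent.VNR
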