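import Mathlib
import Pool.Agent.VNR.Defs
import Pool.Agent.VNR.Alg
import Pool.Agent.VNR.IrrB
import Pool.Agent.VNR.ResD
import Pool.Agent.VNR.ResA
import Pool.Agent.VNR.ResB
/-!
# The resolution
-/
namespace Pool.Agent.VNR
open Pool.Agent.SLX (val)

private theorem res_pr_mono {B G : Type} [LinearOrder B] [Group G] {ev : B → G}
    {a k k' : ℕ} {D : List (List B) → Ch (List (List B))} (hk : k ≤ k') (h : PR ev a k' D) :
    PR ev a k D :=
  ⟨h.nil, fun y c hc hl => h.lead y c hc (by omega), fun y c hc hl => h.sq y c hc (by omega)⟩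

private theorem res_exists_pr {B G : Type} [LinearOrder B] [Finite B] [Group G] (ev : B → G)
    (a k : ℕ) : ∃ D : List (List B) → Ch (List (List B)), PR ev a (k + 1) D := by
  induction k with
  | zero => exact exists_pr_one ev a
  | succ k ih =>
    obtain ⟨D, hD⟩ := ih
    exact extend_pr ev hD

private theorem res_inS_of_inQ {B G : Type} [LinearOrder B] [Finite B] [Group G] {ev : B → G}
    {a : ℕ} {g : G} {n k : ℕ} {Q : List B → Prop} {c : List (List B)}
    (h : InQ ev a g n k Q c) : InS ev a g n k c := by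
  obtain ⟨h1, h2, v, hv, -⟩ := h
  exact ⟨h1, h2, wd_past ev hv⟩

private theorem res_inQ_of_inS {B G : Type} [LinearOrder B] [Finite B] [Group G] {ev : B → G}
    {a : ℕ} {g : G} {n k : ℕ} {c : List (List B)}
    (h : InS ev a g n k c) : InQ ev a g n k (fun _ => True) c := by
  obtain ⟨h1, h2, h3⟩ := h
  obtain ⟨v, hv⟩ := wd_exists ev h3
  exact ⟨h1, h2, v, hv, trivial⟩

theorem exists_res {B G : Type} [LinearOrder B] [Finite B] [Group G] (ev : B → G) (a N : ℕ) :
    ∃ D : List (List B) → Ch (List (List B)), IsRes ev a N D := by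
  obtain ⟨D, hD⟩ := res_exists_pr ev a N
  refine ⟨D, hD.nil, ?_, ?_, ?_⟩
  · intro y c hc hl
    obtain ⟨η, hη, hs⟩ := hD.lead y c hc (by omega)
    rw [hη]
    apply supp_add
    · apply supp_single
      refine ⟨isGen_tail ev hc, rfl, y, ?_, ?_⟩
      · show (tw c).length + y.length = (tw c ++ y).length
        rw [List.length_append]
      · show val ev (tw c) * val ev y = val ev (tw c ++ y)
        rw [val_app]
    · exact supp_mono hs (fun c' hc' => res_inS_of_inQ hc')
  · intro c hc hl
    cases c with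
    | nil => rw [hD.nil, map_zero]
    | cons y c =>
      rw [List.length_cons] at hl
      exact hD.sq y c hc (by omega)
  · intro k hk g n hn c hc h0
    obtain ⟨η, h1, h2⟩ := exact_step ev (res_pr_mono (by omega : k + 1 ≤ N + 1) hD) g n hn
      (fun _ => True) (fun _ _ _ _ => trivial) c
      (supp_mono hc (fun c' hc' => res_inQ_of_inS hc')) h0
    exact ⟨η, supp_mono h1 (fun c' hc' => res_inS_of_inQ hc'), h2⟩

end Pool.Agent.VNR
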