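import Mathlib
import Pool.Agent.VNR.Defs
import Pool.Agent.VNR.Alg
import Pool.Agent.VNR.Carrier
import Pool.Agent.VNR.IrrB
import Pool.Agent.VNR.LBDefs
import Pool.Agent.VNR.Res
import Pool.Agent.VNR.Psi
import Pool.Agent.VNR.Phi
import Pool.Agent.VNR.Hom
/-!
# Intersections of two balls are coarsely acyclic
-/
namespace Pool.Agent.VNR
open Pool.Agent.SLX (val)

private theorem lin_id {X : Type} (c : Ch X) : lin (fun l => Finsupp.single l 1) c = c := by
  simp only [lin, Finsupp.linearCombination_apply, Finsupp.smul_single, smul_eq_mul, mul_one]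
  exact Finsupp.sum_single c

theorem acyc {B G : Type} [LinearOrder B] [Finite B] [Group G] (ev : B → G)
    (hL : LenF (LB ev)) {K : ℕ} (hK : LocT ev K) : Acyc (LB ev) := by
  intro N r
  obtain ⟨Ci, hCi⟩ := hL.inv
  refine ⟨((N + 1) * K + Ci * ((N + 1) * K)) + ((N + 1) * r + Ci * ((N + 1) * r)),
    (N + 1) * r, ?_⟩
  intro g a b k hk c hc hbc
  obtain ⟨D, hD⟩ := exists_res ev a (N + 1)
  obtain ⟨ψ, hψ0, hψ⟩ := exists_psi ev hL a (N + 1) hD
  obtain ⟨Φ, hΦ0, hΦ⟩ := exists_phi ev hL a r (N + 1) hD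
  obtain ⟨H, hH⟩ := exists_hom ev hL a r (N + 1) hD hψ0 hψ hΦ0 hΦ
  have hkr : (k + 1) * r ≤ (N + 1) * r := Nat.mul_le_mul_right r (by omega)
  have hkr' : k * r ≤ (N + 1) * r := Nat.mul_le_mul_right r (by omega)
  have hSm : ∀ l, InI (LB ev) g a b r k l → SmT (LB ev) a r (N + 1 + 1) l := by
    intro l hl
    exact ⟨by rw [hl.1]; omega, fun p hp => (hl.2.1 p hp).1, hl.2.2⟩
  have hΦc : Supp (InS ev a g (a + b + (N + 1) * r) (k + 1)) (lin Φ c) := by
    refine supp_lin hc ?_
    intro l hl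
    obtain ⟨x, l', rfl⟩ : ∃ x l', l = x :: l' := by
      cases l with
      | nil => simp [InI] at hl
      | cons x l' => exact ⟨x, l', rfl⟩
    have hlen : l'.length = k := by
      have := hl.1
      simpa using this
    refine supp_mono ((hΦ _ (hSm _ hl)).1 x l' rfl) ?_
    intro y hy
    refine ⟨hy.1, by rw [hy.2.1]; exact hl.1, ?_⟩
    refine past_trans ev hy.2.2 ?_
    have h1 : LB ev b (x⁻¹ * g) := (hl.2.1 x (by simp)).2
    have h2 : LB ev (b + (N + 1) * r - k * r) (x⁻¹ * g) := hL.mono _ _ _ (by omega) h1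
    obtain ⟨w, hw1, hw2⟩ := h2
    refine ⟨w, ?_, by rw [hw2]; group⟩
    rw [hw1, hlen]
    omega
  have hcyc : lin D (lin Φ c) = 0 := by
    have h1 : lin D (lin Φ c) = lin Φ (bd c) := by
      rw [lin_lin]
      show _ = lin Φ (lin bdl c)
      rw [lin_lin]
      refine lin_congr _ _ _ ?_
      intro l hl
      exact (hΦ l (hSm l (hc l hl))).2
    rw [h1, hbc, map_zero]
  obtain ⟨η, hη, hDη⟩ := hD.exact (k + 1) (by omega) g (a + b + (N + 1) * r) (by omega)
    (lin Φ c) hΦc hcyc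
  have hbψ : bd (lin ψ η) = lin ψ (lin Φ c) := by
    rw [← hDη]
    show lin bdl (lin ψ η) = _
    rw [lin_lin, lin_lin]
    refine lin_congr _ _ _ ?_
    intro l hl
    have h1 := hη l hl
    exact (hψ l h1.1 (by rw [h1.2.1]; omega)).2
  have hbH : bd (lin H c) = c + lin ψ (lin Φ c) := by
    have h1 : bd (lin H c) + lin H (bd c) = c + lin ψ (lin Φ c) := by
      show lin bdl (lin H c) + lin H (lin bdl c) = _
      have h2 : c + lin (fun l => lin ψ (Φ l)) c =
          lin (fun l => Finsupp.single l 1 + lin ψ (Φ l)) c := by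
        rw [lin_add_fun, lin_id]
      rw [lin_lin, lin_lin, lin_lin, ← lin_add_fun, h2]
      refine lin_congr _ _ _ ?_
      intro l hl
      exact (hH l (hSm l (hc l hl))).2
    rw [hbc, map_zero, add_zero] at h1
    exact h1
  refine ⟨lin ψ η + lin H c, supp_add ?_ ?_, ?_⟩
  · refine supp_lin hη ?_
    intro y hy
    have hyne : y ≠ [] := by
      intro h
      have := hy.2.1
      rw [h] at this
      simp at this
    have hge := tw_length_ge ev hy.1 hyne
    have hle := tw_length_le ev hK hy.1 hyne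
    refine supp_mono (hψ y hy.1 (by rw [hy.2.1]; omega)).1 ?_
    intro l hl
    obtain ⟨w, hw1, hw2⟩ := hy.2.2
    have hM : (tw y).length - a ≤ (N + 1) * K := by
      have h3 : (y.length - 1) * K ≤ (N + 1) * K := by
        apply Nat.mul_le_mul_right
        rw [hy.2.1]
        omega
      omega
    refine ⟨by rw [hl.1, hy.2.1], ?_, ?_⟩
    · intro p hp
      refine ⟨(hl.2 p hp).1, ?_⟩
      have h1 := hL.mul _ _ _ _ (hl.2 p hp).2 ⟨w, rfl, rfl⟩
      have h2 : p⁻¹ * val ev (tw y) * val ev w = p⁻¹ * g := by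
        rw [mul_assoc, hw2]
      rw [h2] at h1
      refine hL.mono _ _ _ ?_ h1
      omega
    · intro p hp q hq
      have h1 := hL.mono _ _ _ hM (hl.2 p hp).2
      have h2 := hCi _ _ (hL.mono _ _ _ hM (hl.2 q hq).2)
      have h3 := hL.mul _ _ _ _ h1 h2
      have h4 : p⁻¹ * val ev (tw y) * (q⁻¹ * val ev (tw y))⁻¹ = p⁻¹ * q := by group
      rw [h4] at h3
      exact hL.mono _ _ _ (by omega) h3
  · refine supp_lin hc ?_
    intro l hl
    obtain ⟨x, l', rfl⟩ : ∃ x l', l = x :: l' := by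
      cases l with
      | nil => simp [InI] at hl
      | cons x l' => exact ⟨x, l', rfl⟩
    refine supp_mono ((hH _ (hSm _ hl)).1 x l' rfl) ?_
    intro l'' hl''
    have hlen : (x :: l').length = k + 1 := hl.1
    rw [hlen] at hl''
    have hx : LB ev b (x⁻¹ * g) := (hl.2.1 x (by simp)).2
    refine ⟨hl''.1, ?_, ?_⟩
    · intro p hp
      refine ⟨(hl''.2 p hp).1, ?_⟩
      have h1 := hL.mul _ _ _ _ (hl''.2 p hp).2 hx
      have h2 : p⁻¹ * x * (x⁻¹ * g) = p⁻¹ * g := by group
      rw [h2] at h1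
      exact hL.mono _ _ _ (by omega) h1
    · intro p hp q hq
      have h1 := hL.mono _ _ _ hkr (hl''.2 p hp).2
      have h2 := hCi _ _ (hL.mono _ _ _ hkr (hl''.2 q hq).2)
      have h3 := hL.mul _ _ _ _ h1 h2
      have h4 : p⁻¹ * x * (q⁻¹ * x)⁻¹ = p⁻¹ * q := by group
      rw [h4] at h3
      exact hL.mono _ _ _ (by omega) h3
  · rw [map_add, hbψ, hbH]
    have h1 := ch_add_self (lin ψ (lin Φ c))
    calc lin ψ (lin Φ c) + (c + lin ψ (lin Φ c)) = c + (lin ψ (lin Φ c) + lin ψ (lin Φ c)) := by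
          abel
      _ = c := by rw [h1, add_zero]

end Pool.Agent.VNR
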