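import Mathlib
import Pool.Agent.VNR.Defs
import Pool.Agent.VNR.IrrB
import Pool.Agent.VNR.LBDefs
import Pool.Agent.SLX.Rewriting
/-!
# The length function of a finite complete ShortLex system
-/
namespace Pool.Agent.VNR
open Pool.Agent.SLX (val IsSystem)

private theorem lval_app {B G : Type} [Group G] (ev : B → G) (u v : List B) :
    val ev (u ++ v) = val ev u * val ev v := by
  simp [val]

private theorem lval_cons {B G : Type} [Group G] (ev : B → G) (b : B) (v : List B) :
    val ev (b :: v) = ev b * val ev v := by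
  simp [val]

private theorem evB_bot {A G : Type} [Group G] (π : A → G) : evB π ⊥ = 1 := rfl

private theorem evB_coe {A G : Type} [Group G] (π : A → G) (a : A) : evB π (a : WithBot A) = π a :=
  rfl

private theorem lval_replicate {A G : Type} [Group G] (π : A → G) (k : ℕ) :
    val (evB π) (List.replicate k ⊥) = 1 := by
  simp [val, evB_bot]

private theorem lval_map {A G : Type} [Group G] (π : A → G) (w : List A) :
    val (evB π) (w.map (WithBot.some : A → WithBot A)) = val π w := by
  simp only [val, List.map_map]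
  rfl

private theorem LB_one {B G : Type} [Group G] (ev : B → G) : LB ev 0 1 := ⟨[], rfl, by simp [val]⟩

private theorem LB_mul {B G : Type} [Group G] (ev : B → G) (m n : ℕ) (g h : G) (hg : LB ev m g)
    (hh : LB ev n h) : LB ev (m + n) (g * h) := by
  obtain ⟨u, hu, rfl⟩ := hg
  obtain ⟨v, hv, rfl⟩ := hh
  exact ⟨u ++ v, by rw [List.length_append, hu, hv], lval_app ev u v⟩

private theorem LB_mono {A G : Type} [Group G] (π : A → G) (m n : ℕ) (g : G) (hmn : m ≤ n)
    (hg : LB (evB π) m g) : LB (evB π) n g := by
  obtain ⟨u, hu, rfl⟩ := hg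
  refine ⟨u ++ List.replicate (n - m) ⊥, by rw [List.length_append, hu, List.length_replicate]; omega,
    ?_⟩
  rw [lval_app, lval_replicate, mul_one]

theorem lenF_evB {A G : Type} [Finite A] [LinearOrder A] [Group G] {π : A → G}
    {E : Set (List A × List A)} (h : IsSystem π E) : LenF (LB (evB π)) := by
  have hex : ∀ g : G, ∃ n, LB (evB π) n g := by
    intro g
    obtain ⟨w, hw⟩ := h.surj g
    exact ⟨w.length, w.map (WithBot.some : A → WithBot A), by rw [List.length_map], by
      rw [lval_map, hw]⟩
  have hfinB : Finite (WithBot A) := inferInstanceAs (Finite (Option A))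
  refine ⟨LB_one _, LB_mul _, LB_mono π, hex, ?_, ?_, ?_⟩
  · intro n
    have hf : {w : List (WithBot A) | w.length = n}.Finite := List.finite_length_eq _ n
    refine (hf.image (val (evB π))).subset ?_
    rintro g ⟨w, hw, rfl⟩
    exact ⟨w, hw, rfl⟩
  · choose f hf using hex
    have hfin : (Set.range (fun b : WithBot A => f ((evB π b)⁻¹))).Finite := Set.finite_range _
    obtain ⟨C, hC⟩ := hfin.bddAbove
    have hC' : ∀ b : WithBot A, LB (evB π) C ((evB π b)⁻¹) := fun b =>
      LB_mono π _ _ _ (hC ⟨b, rfl⟩) (hf _)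
    refine ⟨C, ?_⟩
    rintro n g ⟨w, hw, rfl⟩
    subst hw
    induction w with
    | nil => simpa [val] using LB_one (evB π)
    | cons b w ih =>
      rw [lval_cons, mul_inv_rev, List.length_cons, Nat.mul_add, Nat.mul_one]
      exact LB_mul _ _ _ _ _ ih (hC' b)
  · rintro m n g ⟨w, hw, rfl⟩
    refine ⟨val (evB π) (w.take m), val (evB π) (w.drop m), ⟨w.take m, ?_, rfl⟩,
      ⟨w.drop m, ?_, rfl⟩, ?_⟩
    · rw [List.length_take, hw]; omega
    · rw [List.length_drop, hw]; omega
    · rw [← lval_app, List.take_append_drop]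

end Pool.Agent.VNR
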