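import Mathlib
import Pool.Agent.VNR.Defs
import Pool.Agent.VNR.IrrB
import Pool.Agent.VNR.LBDefs
import Pool.Agent.SLX.Rewriting
/-!
# A finite complete ShortLex system gives locally tested least words
-/
namespace Pool.Agent.VNR
open Pool.Agent.SLX (val IsSystem)

section locT

variable {A G : Type} [LinearOrder A] [Group G] {π : A → G}

omit [LinearOrder A] in
private theorem evB_bot : evB π (⊥ : WithBot A) = 1 := rfl

omit [LinearOrder A] in
private theorem evB_coe (a : A) : evB π (a : WithBot A) = π a := rfl

private theorem val_map_coe (u : List A) :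
    val (evB π) (u.map (fun a : A => (a : WithBot A))) = val π u := by
  induction u with
  | nil => rfl
  | cons a u ih =>
    rw [List.map_cons, Pool.Agent.SLX.val_cons, Pool.Agent.SLX.val_cons, ih, evB_coe]

private theorem val_replicate (k : ℕ) :
    val (evB π) (List.replicate k (⊥ : WithBot A)) = 1 := by
  induction k with
  | zero => rfl
  | succ k ih => rw [List.replicate_succ, Pool.Agent.SLX.val_cons, ih, evB_bot, one_mul]

private theorem map_lt_iff (u v : List A) :
    u.map (fun a : A => (a : WithBot A)) < v.map (fun a : A => (a : WithBot A)) ↔ u < v := by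
  induction u generalizing v with
  | nil =>
    cases v with
    | nil => simp
    | cons b v => simp
  | cons a u ih =>
    cases v with
    | nil => simp
    | cons b v =>
      rw [List.map_cons, List.map_cons, List.cons_lt_cons_iff, List.cons_lt_cons_iff, ih,
        WithBot.coe_lt_coe, WithBot.coe_inj]

omit [LinearOrder A] in
/-- a word has a factor `a h` or is `h^k u` -/
private theorem shape (w : List (WithBot A)) :
    (∃ (p q : List (WithBot A)) (a : A), w = p ++ [(a : WithBot A), ⊥] ++ q) ∨
      ∃ (k : ℕ) (u : List A),
        w = List.replicate k (⊥ : WithBot A) ++ u.map (fun a : A => (a : WithBot A)) := by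
  induction w with
  | nil => exact Or.inr ⟨0, [], rfl⟩
  | cons x w ih =>
    rcases ih with ⟨p, q, a, rfl⟩ | ⟨k, u, rfl⟩
    · exact Or.inl ⟨x :: p, q, a, rfl⟩
    · induction x using WithBot.recBotCoe with
      | bot => exact Or.inr ⟨k + 1, u, rfl⟩
      | coe a =>
        cases k with
        | zero => exact Or.inr ⟨0, a :: u, rfl⟩
        | succ k =>
          exact Or.inl ⟨[], List.replicate k (⊥ : WithBot A) ++
            u.map (fun a : A => (a : WithBot A)), a, rfl⟩

/-- a smaller word of the same length begins with the same `h^k` -/
private theorem lt_rep (k : ℕ) (v : List (WithBot A)) (w' : List (WithBot A))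
    (hl : w'.length = (List.replicate k (⊥ : WithBot A) ++ v).length)
    (hlt : w' < List.replicate k (⊥ : WithBot A) ++ v) :
    ∃ v', w' = List.replicate k (⊥ : WithBot A) ++ v' ∧ v' < v := by
  induction k generalizing w' with
  | zero => exact ⟨w', rfl, hlt⟩
  | succ k ih =>
    cases w' with
    | nil => simp [List.replicate_succ] at hl
    | cons x t =>
      rw [List.replicate_succ, List.cons_append] at hlt hl
      rw [List.cons_lt_cons_iff] at hlt
      rcases hlt with hx | ⟨hx, ht⟩
      · exact absurd hx not_lt_bot
      · obtain ⟨v', h1, h2⟩ := ih t (by simpa using hl) ht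
        refine ⟨v', ?_, h2⟩
        rw [hx, h1, List.replicate_succ, List.cons_append]

/-- deleting the padding -/
private theorem strip (v : List (WithBot A)) : ∃ u : List A, u.length ≤ v.length ∧
    val π u = val (evB π) v ∧ (u.length = v.length → v = u.map (fun a : A => (a : WithBot A))) := by
  induction v with
  | nil => exact ⟨[], le_rfl, rfl, fun _ => rfl⟩
  | cons x v ih =>
    obtain ⟨u, h1, h2, h3⟩ := ih
    induction x using WithBot.recBotCoe with
    | bot =>
      refine ⟨u, ?_, ?_, ?_⟩
      · rw [List.length_cons]; omega
      · rw [Pool.Agent.SLX.val_cons, evB_bot, one_mul, h2]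
      · intro h
        rw [List.length_cons] at h
        omega
    | coe a =>
      refine ⟨a :: u, ?_, ?_, ?_⟩
      · rw [List.length_cons, List.length_cons]; omega
      · rw [Pool.Agent.SLX.val_cons, Pool.Agent.SLX.val_cons, evB_coe, h2]
      · intro h
        rw [List.length_cons, List.length_cons] at h
        rw [List.map_cons, ← h3 (by omega)]

variable {E : Set (List A × List A)}

private theorem step_lt (h : IsSystem π E) {a b : List A} (hs : Pool.Agent.SLX.Step E a b) :
    b.length ≤ a.length ∧ (b.length = a.length → b < a) := by
  refine ⟨h.step_length hs, ?_⟩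
  obtain ⟨p, l, r, q, hr, rfl, rfl⟩ := hs
  intro hl
  have h1 : r.length = l.length := by
    simp only [List.length_append] at hl
    omega
  have h2 := h.rule l r hr
  rw [List.shortlex_def] at h2
  rcases h2 with h2 | h2
  · omega
  · exact lt_ctx h1 h2.2 p q

private theorem steps_le (h : IsSystem π E) {a b : List A}
    (hs : Relation.ReflTransGen (Pool.Agent.SLX.Step E) a b) :
    b.length ≤ a.length ∧ (b.length = a.length → b = a ∨ b < a) := by
  induction hs using Relation.ReflTransGen.head_induction_on with
  | refl => exact ⟨le_rfl, fun _ => Or.inl rfl⟩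
  | head hs' _ ih =>
    obtain ⟨h1, h2⟩ := step_lt h hs'
    obtain ⟨h3, h4⟩ := ih
    refine ⟨h3.trans h1, fun hl => Or.inr ?_⟩
    rcases h4 (by omega) with h5 | h5
    · rw [h5]; exact h2 (by omega)
    · exact h5.trans (h2 (by omega))

theorem exists_locT {A G : Type} [LinearOrder A] [Group G] {π : A → G}
    {E : Set (List A × List A)} (h : IsSystem π E) : ∃ K, LocT (evB π) K := by
  obtain ⟨R, hR⟩ := h.exists_bound
  refine ⟨max 2 R, fun w hw => ?_⟩
  rcases shape w with ⟨p, q, a, rfl⟩ | ⟨k, u, rfl⟩
  · refine ⟨p, [(a : WithBot A), ⊥], q, rfl, by simp, ?_⟩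
    intro hirr
    refine hirr [⊥, (a : WithBot A)] ⟨rfl, ?_, ?_⟩
    · rw [Pool.Agent.SLX.val_cons, Pool.Agent.SLX.val_cons, Pool.Agent.SLX.val_cons,
        Pool.Agent.SLX.val_cons, evB_bot, one_mul, one_mul]
    · rw [List.cons_lt_cons_iff]
      exact Or.inl (WithBot.bot_lt_coe a)
  · -- `u` is reducible
    have hred : ∃ v, Pool.Agent.SLX.Step E u v := by
      by_contra hcon
      push Not at hcon
      rw [Irr] at hw
      push Not at hw
      obtain ⟨w', h1, h2, h3⟩ := hw
      obtain ⟨v', rfl, hv'⟩ := lt_rep k _ w' h1 h3
      have hlen : v'.length = u.length := by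
        simp only [List.length_append, List.length_map] at h1
        omega
      have hval : val (evB π) v' = val π u := by
        rw [Pool.Agent.SLX.val_append, Pool.Agent.SLX.val_append, val_replicate, one_mul,
          one_mul, val_map_coe] at h2
        exact h2
      obtain ⟨u', h4, h5, h6⟩ := strip (π := π) v'
      have hnf : Pool.Agent.SLX.NormalForm E u' u := by
        have he : Relation.EqvGen (Pool.Agent.SLX.Step E) u' u := by
          rw [← h.presents, h5, hval]
        rw [h.nf_iff he]
        exact ⟨Relation.ReflTransGen.refl, hcon⟩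
      obtain ⟨h7, h8⟩ := steps_le h hnf.1
      have h9 : v' = u'.map (fun a : A => (a : WithBot A)) := h6 (by omega)
      rw [h9, map_lt_iff] at hv'
      rcases h8 (by omega) with h10 | h10
      · rw [h10] at hv'
        exact lt_irrefl _ hv'
      · exact lt_irrefl _ (hv'.trans h10)
    obtain ⟨_, p, l, r, q, hr, rfl, rfl⟩ := hred
    refine ⟨List.replicate k (⊥ : WithBot A) ++ p.map (fun a : A => (a : WithBot A)),
      l.map (fun a : A => (a : WithBot A)), q.map (fun a : A => (a : WithBot A)), ?_, ?_, ?_⟩
    · simp [List.map_append, List.append_assoc]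
    · rw [List.length_map]
      exact (hR l r hr).1.trans (le_max_right _ _)
    · intro hirr
      have hlen := h.length_rule hr
      refine hirr (List.replicate (l.length - r.length) (⊥ : WithBot A) ++
        r.map (fun a : A => (a : WithBot A))) ⟨?_, ?_, ?_⟩
      · rw [List.length_append, List.length_replicate, List.length_map, List.length_map]
        omega
      · rw [Pool.Agent.SLX.val_append, val_replicate, one_mul, val_map_coe, val_map_coe,
          h.val_rule hr]
      · have h2 := h.rule l r hr
        rw [List.shortlex_def] at h2
        rcases h2 with h2 | h2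
        · cases l with
          | nil => simp at h2
          | cons a l =>
            obtain ⟨m, hm⟩ : ∃ m, (a :: l).length - r.length = m + 1 :=
              ⟨(a :: l).length - r.length - 1, by omega⟩
            rw [hm, List.replicate_succ, List.cons_append, List.map_cons,
              List.cons_lt_cons_iff]
            exact Or.inl (WithBot.bot_lt_coe a)
        · rw [h2.1, Nat.sub_self]
          simp only [List.replicate_zero, List.nil_append]
          rw [map_lt_iff]
          exact h2.2

end locT

end Pool.Agent.VNR
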