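import Mathlib
import Pool.Agent.VNR.Defs
import Pool.Agent.VNR.LBDefs
import Pool.Agent.VNR.LocT
import Pool.Agent.VNR.LenB
import Pool.Agent.VNR.LemA
import Pool.Agent.VNR.Fib
import Pool.Agent.VNR.EndA
import Pool.Agent.VNR.EndB
import Pool.Agent.VNR.LabA
/-!
# A virtually nilpotent group with a finite complete ShortLex system is virtually abelian
-/
namespace Pool.Agent.VNR
open Pool.Agent.SLX (HasSystem IsSystem)

theorem fg_of_hasSystem {G : Type} [Group G] (h : HasSystem G) : Group.FG G := by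
  obtain ⟨A, hfin, hord, π, E, hE⟩ := h
  refine ⟨(Subgroup.fg_iff _).2 ⟨Set.range π, ?_, Set.finite_range π⟩⟩
  rw [eq_top_iff]
  intro g _
  obtain ⟨w, rfl⟩ := hE.surj g
  refine Subgroup.list_prod_mem _ ?_
  intro x hx
  obtain ⟨a, -, rfl⟩ := List.mem_map.1 hx
  exact Subgroup.subset_closure ⟨a, rfl⟩

/-- In a group with labels and a finite complete ShortLex system there is no distorted element
with finitely many conjugates. -/
theorem no_dist {G : Type} [Group G] (h : HasSystem G) {D : ℕ}
    (hD : Pool.Agent.VNP.PLab G D) (z : G) (hz : Dist z) : False := by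
  obtain ⟨A, hfin, hord, π, E, hE⟩ := h
  have hL := lenF_evB hE
  obtain ⟨K, hK⟩ := exists_locT hE
  have hA : Acyc (LB (evB π)) := acyc (evB π) hL hK
  exact not_dist hL (exists_short_disp hL (acycL hL hA) (labG_of_plab hL hD)) z hz

theorem main {G : Type} [Group G] (H : Subgroup G) [H.FiniteIndex] [Group.IsNilpotent H]
    (h : HasSystem G) : ∃ A : Subgroup G, A.FiniteIndex ∧ ∀ a ∈ A, ∀ b ∈ A, a * b = b * a := by
  have hGfg : Group.FG G := fg_of_hasSystem h
  have hHfg : Group.FG H := Subgroup.fg_of_index_ne_zero H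
  obtain ⟨D, hD⟩ := Pool.Agent.VNP.plab_vnilp H
  by_contra hna
  obtain ⟨z, hz⟩ := dist_of_hasDist (Pool.Agent.VNP.dist_vnilp G H hna)
  exact no_dist h hD z hz

end Pool.Agent.VNR
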